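import Pool.Agent.E8helper14.JM.Core

/-!
# From `G T ~ g T` to `U δ ~ κ g δ`
-/

set_option autoImplicit false

open Filter Topology MeasureTheory Set

namespace Pool.Agent.E8helper14.JM

/-- `(1 - cos x) / x ^ 2` -/
noncomputable def ph (x : ℝ) : ℝ := ∫ s in (0 : ℝ)..1, (1 - s) * Real.cos (x * s)

/-- its derivative -/
noncomputable def ph' (x : ℝ) : ℝ := ∫ s in (0 : ℝ)..1, (1 - s) * (-Real.sin (x * s) * s)

theorem ph_deriv (x : ℝ) : HasDerivAt ph (ph' x) x := by
  have h := intervalIntegral.hasDerivAt_integral_of_dominated_loc_of_deriv_le (𝕜 := ℝ) (μ := volume)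
    (F := fun x s : ℝ => (1 - s) * Real.cos (x * s)) (F' := fun x s : ℝ => (1 - s) * (-Real.sin (x * s) * s))
    (x₀ := x) (s := univ) (a := 0) (b := 1) (bound := fun _ => 1) Filter.univ_mem
    (Eventually.of_forall fun y => by
      apply Continuous.aestronglyMeasurable
      fun_prop)
    (by
      apply Continuous.intervalIntegrable
      fun_prop)
    (by
      apply Continuous.aestronglyMeasurable
      fun_prop)
    (Eventually.of_forall fun s hs y _ => ?_) (by simp)
    (Eventually.of_forall fun s hs y _ => ?_)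
  · exact h.2
  · rw [uIoc_of_le zero_le_one] at hs
    rw [norm_mul, norm_mul, norm_neg, Real.norm_eq_abs, Real.norm_eq_abs, Real.norm_eq_abs,
      abs_of_nonneg (by linarith [hs.2] : (0 : ℝ) ≤ 1 - s), abs_of_pos hs.1]
    have h1 := Real.abs_sin_le_one (y * s)
    have h2 : |Real.sin (y * s)| * s ≤ 1 := by nlinarith [hs.1, hs.2, abs_nonneg (Real.sin (y * s))]
    have h3 : 0 ≤ |Real.sin (y * s)| * s := mul_nonneg (abs_nonneg _) hs.1.le
    nlinarith [hs.1, hs.2]
  · have h1 : HasDerivAt (fun y : ℝ => y * s) s y := by simpa using (hasDerivAt_id y).mul_const s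
    exact (h1.cos).const_mul (1 - s)

theorem ph'_cont : Continuous ph' := by
  unfold ph'
  exact intervalIntegral.continuous_parametric_intervalIntegral_of_continuous' (by fun_prop) 0 1

theorem ph_cont : Continuous ph := continuous_iff_continuousAt.2 fun x => (ph_deriv x).continuousAt

/-- `x ^ 2 ph x = 1 - cos x` -/
theorem sq_ph (x : ℝ) : x ^ 2 * ph x = 1 - Real.cos x := by
  by_cases hx : x = 0
  · subst hx
    simp
  · unfold ph
    have h1 : ∀ s ∈ uIcc (0 : ℝ) 1, HasDerivAt (fun s : ℝ => (1 - s) * (Real.sin (x * s) / x) -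
        Real.cos (x * s) / x ^ 2) ((1 - s) * Real.cos (x * s)) s := by
      intro s _
      have h2 : HasDerivAt (fun s : ℝ => x * s) x s := by simpa using (hasDerivAt_id s).const_mul x
      have h3 : HasDerivAt (fun s : ℝ => 1 - s) (-1) s := by simpa using (hasDerivAt_id s).const_sub 1
      have h4 := (h3.mul (h2.sin.div_const x)).sub (h2.cos.div_const (x ^ 2))
      refine h4.congr_deriv ?_
      field_simp
      ring
    rw [intervalIntegral.integral_eq_sub_of_hasDerivAt h1 (by
      apply Continuous.intervalIntegrable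
      fun_prop)]
    simp
    field_simp
    ring

theorem ph_nonneg (x : ℝ) : 0 ≤ ph x := by
  by_cases hx : x = 0
  · subst hx
    unfold ph
    refine intervalIntegral.integral_nonneg zero_le_one fun s hs => ?_
    simp only [zero_mul, Real.cos_zero, mul_one]
    linarith [hs.2]
  · have h1 := sq_ph x
    have h2 := Real.cos_le_one x
    have h3 : 0 < x ^ 2 := by positivity
    by_contra h
    push Not at h
    nlinarith

variable {ι : Type} {w γ : ι → ℝ}

/-- Abel summation -/
theorem abel [Countable ι] (hw0 : ∀ i, 0 ≤ w i) (hw : Summable w) {f f' : ℝ → ℝ}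
    (hf : ∀ x, HasDerivAt f (f' x) x) (hf' : Continuous f') {T K : ℝ} (hT : 0 < T) (hK : 0 ≤ K) :
    ∑' i, (if |γ i| ≤ K * T then γ i ^ 2 * w i * f (|γ i| / T) else 0) =
      f K * G w γ (K * T) - ∫ x in (0 : ℝ)..K, f' x * G w γ (x * T) := by
  have hfc : Continuous f := continuous_iff_continuousAt.2 fun x => (hf x).continuousAt
  -- the integral of the sum
  have hF : ∀ i, ∫ x in (0 : ℝ)..K, f' x * (if |γ i| ≤ x * T then γ i ^ 2 * w i else 0) =
      if |γ i| ≤ K * T then γ i ^ 2 * w i * (f K - f (|γ i| / T)) else 0 := by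
    intro i
    by_cases h : |γ i| ≤ K * T
    · rw [if_pos h]
      have h0 : 0 ≤ |γ i| / T := by positivity
      have h1 : |γ i| / T ≤ K := (div_le_iff₀ hT).2 h
      have e1 : (fun x : ℝ => f' x * (if |γ i| ≤ x * T then γ i ^ 2 * w i else 0)) =
          Set.indicator (Ici (|γ i| / T)) (fun x => f' x * (γ i ^ 2 * w i)) := by
        funext x
        by_cases hx : |γ i| ≤ x * T
        · rw [if_pos hx, Set.indicator_of_mem (show x ∈ Ici (|γ i| / T) from (div_le_iff₀ hT).2 hx)]
        · rw [if_neg hx, Set.indicator_of_notMem (show x ∉ Ici (|γ i| / T) from fun h' => hx ((div_le_iff₀ hT).1 h')), mul_zero]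
      rw [e1, intervalIntegral.integral_of_le hK, setIntegral_indicator measurableSet_Ici]
      have e2 : (Ioc 0 K ∩ Ici (|γ i| / T) : Set ℝ) =ᵐ[volume] (Ioc (|γ i| / T) K : Set ℝ) := by
        have h3 : Ioc (|γ i| / T) K ⊆ Ioc 0 K ∩ Ici (|γ i| / T) := fun x hx =>
          ⟨⟨h0.trans_lt hx.1, hx.2⟩, hx.1.le⟩
        have h4 : Ioc 0 K ∩ Ici (|γ i| / T) ⊆ Ioc (|γ i| / T) K ∪ {|γ i| / T} := by
          rintro x ⟨hx1, hx2⟩
          rcases (show |γ i| / T ≤ x from hx2).eq_or_lt with h5 | h5
          · exact Or.inr h5.symm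
          · exact Or.inl ⟨h5, hx1.2⟩
        refine (ae_le_set.2 ?_).antisymm (ae_le_set.2 ?_)
        · refine measure_mono_null (t := {|γ i| / T}) ?_ (measure_singleton _)
          rintro x ⟨hx1, hx2⟩
          rcases h4 hx1 with h5 | h5
          · exact absurd h5 hx2
          · exact h5
        · rw [Set.sdiff_eq_empty.2 h3, measure_empty]
      rw [setIntegral_congr_set e2, ← intervalIntegral.integral_of_le h1,
        intervalIntegral.integral_mul_const, intervalIntegral.integral_eq_sub_of_hasDerivAt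
          (fun x _ => hf x) (hf'.intervalIntegrable _ _)]
      ring
    · rw [if_neg h]
      rw [intervalIntegral.integral_zero_ae]
      refine Eventually.of_forall fun x hx => ?_
      rw [uIoc_of_le hK] at hx
      rw [if_neg, mul_zero]
      intro h1
      refine h (h1.trans ?_)
      exact mul_le_mul_of_nonneg_right hx.2 hT.le
  obtain ⟨B, hB⟩ : ∃ B, ∀ x ∈ Icc 0 K, |f' x| ≤ B := by
    obtain ⟨B, hB⟩ := isCompact_Icc.exists_bound_of_continuousOn (s := Icc 0 K) hf'.continuousOn
    exact ⟨B, fun x hx => hB x hx⟩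
  have hB0 : 0 ≤ B := (abs_nonneg _).trans (hB 0 ⟨le_rfl, hK⟩)
  have hmeas : ∀ i, Measurable fun x : ℝ => f' x * (if |γ i| ≤ x * T then γ i ^ 2 * w i else 0) := by
    intro i
    refine hf'.measurable.mul (Measurable.ite ?_ measurable_const measurable_const)
    exact measurableSet_le measurable_const (measurable_id.mul_const T)
  have hbd : ∀ i, ∀ x ∈ Ioc 0 K, ‖f' x * (if |γ i| ≤ x * T then γ i ^ 2 * w i else 0)‖ ≤
      B * ((K * T) ^ 2 * w i) := by
    intro i x hx
    rw [norm_mul, Real.norm_eq_abs, Real.norm_of_nonneg (gterm_nonneg hw0 _ i)]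
    refine mul_le_mul (hB x ⟨hx.1.le, hx.2⟩) ((gterm_le hw0 _ i).trans ?_) (gterm_nonneg hw0 _ i) hB0
    refine mul_le_mul_of_nonneg_right ?_ (hw0 i)
    exact pow_le_pow_left₀ (mul_nonneg hx.1.le hT.le) (mul_le_mul_of_nonneg_right hx.2 hT.le) 2
  have hint : ∀ i, IntegrableOn (fun x : ℝ => f' x * (if |γ i| ≤ x * T then γ i ^ 2 * w i else 0))
      (Ioc 0 K) := by
    intro i
    refine Measure.integrableOn_of_bounded (M := B * ((K * T) ^ 2 * w i)) (by simp)
      (hmeas i).aestronglyMeasurable ?_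
    exact (ae_restrict_iff' measurableSet_Ioc).2 (Eventually.of_forall (hbd i))
  have hs : Summable fun i => ∫ x in Ioc 0 K, ‖f' x * (if |γ i| ≤ x * T then γ i ^ 2 * w i else 0)‖ := by
    refine Summable.of_nonneg_of_le (fun i => integral_nonneg fun x => norm_nonneg _) (fun i => ?_)
      (hw.mul_left (B * (K * T) ^ 2 * K))
    have h1 : ∫ x in Ioc 0 K, ‖f' x * (if |γ i| ≤ x * T then γ i ^ 2 * w i else 0)‖ ≤
        ∫ x in Ioc 0 K, B * ((K * T) ^ 2 * w i) :=
      setIntegral_mono_on (hint i).norm (integrable_const _) measurableSet_Ioc (hbd i)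
    refine h1.trans (le_of_eq ?_)
    rw [setIntegral_const, Measure.real, Real.volume_Ioc, sub_zero, ENNReal.toReal_ofReal hK, smul_eq_mul]
    ring
  have h1 := hasSum_integral_of_summable_integral_norm hint hs
  have h2 : ∫ x in (0 : ℝ)..K, f' x * G w γ (x * T) =
      ∑' i, if |γ i| ≤ K * T then γ i ^ 2 * w i * (f K - f (|γ i| / T)) else 0 := by
    rw [intervalIntegral.integral_of_le hK]
    have e1 : (fun x => f' x * G w γ (x * T)) =
        fun x => ∑' i, f' x * (if |γ i| ≤ x * T then γ i ^ 2 * w i else 0) := by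
      funext x
      rw [tsum_mul_left]
      rfl
    rw [e1, ← h1.tsum_eq]
    refine tsum_congr fun i => ?_
    rw [← hF i, intervalIntegral.integral_of_le hK]
  have hbf : ∃ D, ∀ x ∈ Icc 0 K, |f x| ≤ D := by
    obtain ⟨D, hD⟩ := isCompact_Icc.exists_bound_of_continuousOn (s := Icc 0 K) hfc.continuousOn
    exact ⟨D, fun x hx => hD x hx⟩
  obtain ⟨D, hD⟩ := hbf
  have hsf : Summable fun i => if |γ i| ≤ K * T then γ i ^ 2 * w i * f (|γ i| / T) else 0 := by
    refine Summable.of_norm_bounded (g := fun i => ((K * T) ^ 2 * w i) * D) ((hw.mul_left _).mul_right _)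
      fun i => ?_
    have hD0 : 0 ≤ D := (abs_nonneg _).trans (hD 0 ⟨le_rfl, hK⟩)
    by_cases h : |γ i| ≤ K * T
    · rw [if_pos h, norm_mul, Real.norm_of_nonneg (mul_nonneg (sq_nonneg _) (hw0 i)), Real.norm_eq_abs]
      have h3 := gterm_le hw0 (γ := γ) (K * T) i
      rw [if_pos h] at h3
      refine mul_le_mul h3 (hD _ ⟨by positivity, (div_le_iff₀ hT).2 h⟩) (abs_nonneg _) ?_
      exact mul_nonneg (sq_nonneg _) (hw0 i)
    · rw [if_neg h, norm_zero]
      exact mul_nonneg (mul_nonneg (sq_nonneg _) (hw0 i)) hD0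
  rw [h2, eq_sub_iff_add_eq]
  unfold G
  rw [← tsum_mul_left]
  have hs3 : Summable fun i => if |γ i| ≤ K * T then γ i ^ 2 * w i * (f K - f (|γ i| / T)) else 0 := by
    have h5 := ((summable_G hw0 hw (γ := γ) (K * T)).mul_left (f K)).sub hsf
    refine h5.congr fun i => ?_
    by_cases h : |γ i| ≤ K * T
    · rw [if_pos h, if_pos h, if_pos h]; ring
    · rw [if_neg h, if_neg h, if_neg h]; ring
  rw [← hsf.tsum_add hs3]
  refine tsum_congr fun i => ?_
  by_cases h : |γ i| ≤ K * T
  · rw [if_pos h, if_pos h, if_pos h]; ring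
  · rw [if_neg h, if_neg h, if_neg h]; ring

end Pool.Agent.E8helper14.JM
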