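import Pool.Agent.E8helper14.JM.Abel
import Pool.Agent.H506R3.MagB.M1

/-!
# From `G T ~ g T` to `U δ ~ (π / 2) g δ`
-/

set_option autoImplicit false

open Filter Topology MeasureTheory Set

namespace Pool.Agent.E8helper14.JM

/-- `κ = ∫_0^∞ (1 - cos x) / x ^ 2 dx` -/
noncomputable def kap : ℝ := ∫ x in Ioi (0 : ℝ), ph x

theorem ph_eq {x : ℝ} (hx : x ≠ 0) : ph x = (1 - Real.cos (x * 1)) / x ^ 2 := by
  rw [mul_one, ← sq_ph x]
  field_simp

theorem ph_integrable : Integrable ph := by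
  refine (Pool.Agent.H506R3.MagB.int_one_sub_cos 1).congr ?_
  have hne : ∀ᵐ s : ℝ, s ≠ 0 := by
    rw [ae_iff]
    simp
  filter_upwards [hne] with x hx
  exact (ph_eq hx).symm

theorem ph_even (x : ℝ) : ph (-x) = ph x := by
  unfold ph
  refine intervalIntegral.integral_congr fun s _ => ?_
  rw [neg_mul, Real.cos_neg]

theorem kap_two : ∫ x : ℝ, ph x = 2 * kap := by
  have h1 := integral_comp_abs (f := ph)
  rw [show (fun x : ℝ => ph |x|) = ph from funext fun x => by
    rcases abs_cases x with ⟨h, _⟩ | ⟨h, _⟩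
    · rw [h]
    · rw [h, ph_even]] at h1
  exact h1

theorem int_reg_eq (ε : ℝ) (hε : 0 < ε) :
    ∫ s : ℝ, (1 - Real.cos (s * 1)) / (s ^ 2 + ε ^ 2) = Real.pi / ε * (1 - Real.exp (-ε)) := by
  have hb := Pool.Agent.H506R3.MagB.int_base ε hε
  have h0 := Pool.Agent.H506R3.MagB.ft_base ε hε 0
  have h1 := Pool.Agent.H506R3.MagB.ft_base ε hε 1
  have i1 : Integrable (fun s : ℝ => Pool.Agent.H506R3.MagB.ex (s * 1) * (((s : ℂ) ^ 2 + ε ^ 2)⁻¹)) := by
    refine hb.bdd_mul (c := 1) ?_ (Eventually.of_forall fun s => ?_)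
    · exact (Pool.Agent.H506R3.MagB.ex_cont.comp (by fun_prop)).aestronglyMeasurable
    · rw [Pool.Agent.H506R3.MagB.norm_ex]
  have i0 : Integrable (fun s : ℝ => Pool.Agent.H506R3.MagB.ex (s * 0) * (((s : ℂ) ^ 2 + ε ^ 2)⁻¹)) := by
    refine hb.congr (Eventually.of_forall fun s => ?_)
    simp [Pool.Agent.H506R3.MagB.ex_zero]
  have key : ∫ s : ℝ, (1 - Real.cos (s * 1)) / (s ^ 2 + ε ^ 2) =
      (∫ s : ℝ, (Pool.Agent.H506R3.MagB.ex (s * 0) * (((s : ℂ) ^ 2 + ε ^ 2)⁻¹) -
        Pool.Agent.H506R3.MagB.ex (s * 1) * (((s : ℂ) ^ 2 + ε ^ 2)⁻¹))).re := by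
    have := integral_re (i0.sub i1) (𝕜 := ℂ)
    simp only [Pi.sub_apply] at this
    rw [show (∫ s : ℝ, (Pool.Agent.H506R3.MagB.ex (s * 0) * (((s : ℂ) ^ 2 + ε ^ 2)⁻¹) -
        Pool.Agent.H506R3.MagB.ex (s * 1) * (((s : ℂ) ^ 2 + ε ^ 2)⁻¹))).re =
        RCLike.re (∫ s : ℝ, (Pool.Agent.H506R3.MagB.ex (s * 0) * (((s : ℂ) ^ 2 + ε ^ 2)⁻¹) -
        Pool.Agent.H506R3.MagB.ex (s * 1) * (((s : ℂ) ^ 2 + ε ^ 2)⁻¹))) from rfl, ← this]
    refine integral_congr_ae (Eventually.of_forall fun s => ?_)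
    simp only
    rw [← sub_mul]
    have e : (((s : ℂ) ^ 2 + ε ^ 2)⁻¹) = (((s ^ 2 + ε ^ 2)⁻¹ : ℝ) : ℂ) := by push_cast; rfl
    rw [e]
    simp only [RCLike.re_to_complex, Complex.re_mul_ofReal, Complex.sub_re,
      Pool.Agent.H506R3.MagB.ex_re, mul_zero, Real.cos_zero]
    rw [div_eq_mul_inv]
  rw [key, integral_sub i0 i1, h0, h1]
  rw [← Complex.ofReal_sub, Complex.ofReal_re]
  simp only [abs_zero, mul_zero, neg_zero, Real.exp_zero, mul_one, abs_one]
  ring

theorem kap_eq : kap = Real.pi / 2 := by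
  have h0 : ∫ x : ℝ, ph x = ∫ s : ℝ, (1 - Real.cos (s * 1)) / s ^ 2 := by
    refine integral_congr_ae ?_
    have hne : ∀ᵐ s : ℝ, s ≠ 0 := by
      rw [ae_iff]
      simp
    filter_upwards [hne] with x hx
    exact ph_eq hx
  have h1 : ∫ s : ℝ, (1 - Real.cos (s * 1)) / s ^ 2 ≤ Real.pi * 1 :=
    Pool.Agent.H506R3.MagB.int_one_sub_cos_le 1 zero_le_one
  have h2 : ∀ n : ℕ, Real.pi / (1 / ((n : ℝ) + 1)) * (1 - Real.exp (-(1 / ((n : ℝ) + 1)))) ≤
      ∫ s : ℝ, (1 - Real.cos (s * 1)) / s ^ 2 := by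
    intro n
    rw [← int_reg_eq (1 / ((n : ℝ) + 1)) (by positivity)]
    refine integral_mono_of_nonneg (Eventually.of_forall fun s => ?_)
      (Pool.Agent.H506R3.MagB.int_one_sub_cos 1) ?_
    · exact div_nonneg (by linarith [Real.cos_le_one (s * 1)]) (by positivity)
    · have hne : ∀ᵐ s : ℝ, s ≠ 0 := by
        rw [ae_iff]
        simp
      filter_upwards [hne] with s hs
      refine div_le_div_of_nonneg_left (by linarith [Real.cos_le_one (s * 1)]) (by positivity) ?_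
      have : 0 ≤ (1 / ((n : ℝ) + 1)) ^ 2 := by positivity
      linarith
  have h3 : Tendsto (fun x : ℝ => Real.pi / x * (1 - Real.exp (-x))) (𝓝[≠] 0) (𝓝 (Real.pi * 1)) := by
    have h4 : HasDerivAt (fun x : ℝ => 1 - Real.exp (-x)) 1 0 := by
      have h5 : HasDerivAt (fun x : ℝ => -x) (-1) 0 := (hasDerivAt_id (0 : ℝ)).neg
      have h6 := h5.exp.const_sub 1
      simpa using h6
    have h7 := h4.tendsto_slope_zero
    simp only [zero_add, neg_zero, Real.exp_zero, sub_self, sub_zero, smul_eq_mul] at h7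
    refine (h7.const_mul Real.pi).congr fun x => ?_
    ring
  have h4 : Tendsto (fun n : ℕ => (1 / ((n : ℝ) + 1))) atTop (𝓝[≠] 0) := by
    refine tendsto_nhdsWithin_iff.2 ⟨tendsto_one_div_add_atTop_nhds_zero_nat, Eventually.of_forall fun n => ?_⟩
    have : (0 : ℝ) < 1 / ((n : ℝ) + 1) := by positivity
    exact this.ne'
  have h5 := le_of_tendsto' (h3.comp h4) h2
  rw [← h0, kap_two] at h1 h5
  linarith

variable {ι : Type} {w γ : ι → ℝ}

theorem G_bdd (hw0 : ∀ i, 0 ≤ w i) (hw : Summable w) {g : ℝ}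
    (hG : Tendsto (fun T => G w γ T / T) atTop (𝓝 g)) : ∃ C : ℝ, ∀ T : ℝ, 1 ≤ T → G w γ T ≤ C * T := by
  obtain ⟨T₀, hT₀⟩ := eventually_atTop.1 (hG.eventually (eventually_le_nhds (show g < g + 1 by linarith)))
  have h1 : 1 ≤ max T₀ 1 := le_max_right _ _
  refine ⟨max (g + 1) (G w γ (max T₀ 1)), fun T hT => ?_⟩
  have hT0 : 0 < T := by linarith
  rcases le_total (max T₀ 1) T with h | h
  · have h2 := (div_le_iff₀ hT0).1 (hT₀ T ((le_max_left _ _).trans h))
    exact h2.trans (mul_le_mul_of_nonneg_right (le_max_left _ _) hT0.le)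
  · have h2 := G_mono hw0 hw (γ := γ) h
    have h3 := G_nonneg hw0 (γ := γ) (max T₀ 1)
    calc G w γ T ≤ G w γ (max T₀ 1) * 1 := by rw [mul_one]; exact h2
      _ ≤ max (g + 1) (G w γ (max T₀ 1)) * T :=
        mul_le_mul (le_max_right _ _) hT zero_le_one (h3.trans (le_max_right _ _))

theorem G_scale {g : ℝ} (hG : Tendsto (fun T => G w γ T / T) atTop (𝓝 g)) {x : ℝ} (hx : 0 < x) :
    Tendsto (fun T => G w γ (x * T) / T) atTop (𝓝 (g * x)) := by
  have h1 : Tendsto (fun T : ℝ => x * T) atTop atTop := tendsto_id.const_mul_atTop hx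
  have h2 := (hG.comp h1).mul_const x
  refine h2.congr' ?_
  filter_upwards [eventually_gt_atTop 0] with T hT
  simp only [Function.comp_apply]
  field_simp

theorem lim_K [Countable ι] (hw0 : ∀ i, 0 ≤ w i) (hw : Summable w) {g : ℝ}
    (hG : Tendsto (fun T => G w γ T / T) atTop (𝓝 g)) {K : ℝ} (hK : 0 < K) :
    Tendsto (fun T : ℝ => (∑' i, if |γ i| ≤ K * T then γ i ^ 2 * w i * ph (|γ i| / T) else 0) / T) atTop
      (𝓝 (g * ∫ x in (0 : ℝ)..K, ph x)) := by
  have hmono : Monotone (G w γ) := fun a b h => G_mono hw0 hw h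
  have h1 : Tendsto (fun T : ℝ => ph K * (G w γ (K * T) / T) - ∫ x in (0 : ℝ)..K, ph' x * (G w γ (x * T) / T))
      atTop (𝓝 (ph K * (g * K) - ∫ x in (0 : ℝ)..K, ph' x * (g * x))) := by
    refine ((G_scale hG hK).const_mul _).sub ?_
    obtain ⟨B, hB⟩ := isCompact_Icc.exists_bound_of_continuousOn (s := Icc 0 K) ph'_cont.continuousOn
    refine intervalIntegral.tendsto_integral_filter_of_dominated_convergence
      (fun _ => B * (g * K + 1)) ?_ ?_ (by simp) ?_
    · refine Eventually.of_forall fun T => ?_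
      refine (Measurable.mul ph'_cont.measurable ?_).aestronglyMeasurable
      exact (hmono.measurable.comp (measurable_id.mul_const T)).div_const T
    · have h2 := (G_scale hG hK).eventually (eventually_le_nhds (show g * K < g * K + 1 by linarith))
      filter_upwards [h2, eventually_gt_atTop 0] with T hT hT0
      refine Eventually.of_forall fun x hx => ?_
      rw [uIoc_of_le hK.le] at hx
      have h3 : 0 ≤ G w γ (x * T) / T := div_nonneg (G_nonneg hw0 _) hT0.le
      rw [norm_mul, Real.norm_of_nonneg h3]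
      refine mul_le_mul (hB x ⟨hx.1.le, hx.2⟩) ?_ h3 ((norm_nonneg _).trans (hB x ⟨hx.1.le, hx.2⟩))
      refine le_trans ?_ hT
      exact div_le_div_of_nonneg_right (hmono (mul_le_mul_of_nonneg_right hx.2 hT0.le)) hT0.le
    · refine Eventually.of_forall fun x hx => ?_
      rw [uIoc_of_le hK.le] at hx
      exact (G_scale hG hx.1).const_mul _
  have h2 : ph K * (g * K) - ∫ x in (0 : ℝ)..K, ph' x * (g * x) = g * ∫ x in (0 : ℝ)..K, ph x := by
    have h3 : ∫ x in (0 : ℝ)..K, (ph' x * x + ph x) = ph K * K - ph 0 * 0 := by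
      refine intervalIntegral.integral_eq_sub_of_hasDerivAt (f := fun x => ph x * x) (fun x _ => ?_) ?_
      · have h4 := (ph_deriv x).mul (hasDerivAt_id x)
        refine h4.congr_deriv ?_
        simp
      · exact ((ph'_cont.mul continuous_id).add ph_cont).intervalIntegrable _ _
    have i1 : IntervalIntegrable (fun x => ph' x * x) volume 0 K :=
      (ph'_cont.mul continuous_id').intervalIntegrable _ _
    rw [intervalIntegral.integral_add i1 (ph_cont.intervalIntegrable _ _)] at h3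
    have h5 : ∫ x in (0 : ℝ)..K, ph' x * (g * x) = g * ∫ x in (0 : ℝ)..K, ph' x * x := by
      rw [← intervalIntegral.integral_const_mul]
      refine intervalIntegral.integral_congr fun x _ => ?_
      ring
    rw [h5]
    linear_combination (-g) * h3
  rw [h2] at h1
  refine h1.congr' ?_
  filter_upwards [eventually_gt_atTop 0] with T hT
  rw [abel hw0 hw ph_deriv ph'_cont hT hK.le, sub_div, mul_div_assoc, ← intervalIntegral.integral_div]
  congr 1
  refine intervalIntegral.integral_congr fun x _ => ?_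
  rw [mul_div_assoc]

theorem split_U (hw0 : ∀ i, 0 ≤ w i) (hw : Summable w) {T K : ℝ} (hT : 0 < T) :
    0 ≤ T * U w γ (1 / T) - (∑' i, if |γ i| ≤ K * T then γ i ^ 2 * w i * ph (|γ i| / T) else 0) / T ∧
    T * U w γ (1 / T) - (∑' i, if |γ i| ≤ K * T then γ i ^ 2 * w i * ph (|γ i| / T) else 0) / T ≤
      2 * T * R w γ (K * T) := by
  have hterm : ∀ i, γ i ^ 2 * w i * ph (|γ i| / T) / T = T * (w i * (1 - Real.cos (1 / T * γ i))) := by
    intro i
    have h1 := sq_ph (|γ i| / T)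
    have h2 : Real.cos (|γ i| / T) = Real.cos (1 / T * γ i) := by
      rw [← Real.cos_abs (1 / T * γ i), abs_mul, abs_of_pos (by positivity : (0 : ℝ) < 1 / T)]
      congr 1
      ring
    rw [h2, div_pow, sq_abs] at h1
    rw [← h1]
    field_simp
  have hS : Summable fun i => T * (w i * (1 - Real.cos (1 / T * γ i))) := (summable_U hw0 hw _).mul_left _
  have hn : ∀ i, 0 ≤ T * (w i * (1 - Real.cos (1 / T * γ i))) :=
    fun i => mul_nonneg hT.le (term_nonneg hw0 _ i)
  have e1 : (∑' i, if |γ i| ≤ K * T then γ i ^ 2 * w i * ph (|γ i| / T) else 0) / T =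
      ∑' i, if |γ i| ≤ K * T then T * (w i * (1 - Real.cos (1 / T * γ i))) else 0 := by
    rw [← tsum_div_const]
    refine tsum_congr fun i => ?_
    split_ifs
    · exact hterm i
    · simp
  have hS2 : Summable fun i => if |γ i| ≤ K * T then T * (w i * (1 - Real.cos (1 / T * γ i))) else 0 :=
    Summable.of_nonneg_of_le (fun i => by
      split_ifs
      · exact hn i
      · exact le_rfl) (fun i => by
      split_ifs
      · exact le_rfl
      · exact hn i) hS
  have e2 : T * U w γ (1 / T) - (∑' i, if |γ i| ≤ K * T then γ i ^ 2 * w i * ph (|γ i| / T) else 0) / T =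
      ∑' i, if |γ i| ≤ K * T then 0 else T * (w i * (1 - Real.cos (1 / T * γ i))) := by
    rw [e1]
    unfold U
    rw [← tsum_mul_left, ← hS.tsum_sub hS2]
    refine tsum_congr fun i => ?_
    split_ifs
    · ring
    · ring
  rw [e2]
  have hn2 : ∀ i, 0 ≤ if |γ i| ≤ K * T then 0 else T * (w i * (1 - Real.cos (1 / T * γ i))) := by
    intro i
    split_ifs
    · exact le_rfl
    · exact hn i
  refine ⟨tsum_nonneg hn2, ?_⟩
  unfold R
  rw [← tsum_mul_left]
  refine Summable.tsum_le_tsum (fun i => ?_) (Summable.of_nonneg_of_le hn2 (fun i => by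
      split_ifs
      · exact hn i
      · exact le_rfl) hS) ((summable_R hw0 hw _).mul_left _)
  by_cases h : |γ i| ≤ K * T
  · rw [if_pos h, if_neg (not_lt.2 h), mul_zero]
  · rw [if_neg h, if_pos (not_le.1 h)]
    have := term_le hw0 (γ := γ) (1 / T) i
    nlinarith

/-- **The Abelian theorem.** -/
theorem abelian [Countable ι] (hw0 : ∀ i, 0 ≤ w i) (hw : Summable w) {g : ℝ}
    (hG : Tendsto (fun T => G w γ T / T) atTop (𝓝 g)) :
    Tendsto (fun T : ℝ => T * U w γ (1 / T)) atTop (𝓝 (g * kap)) := by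
  obtain ⟨C, hC⟩ := G_bdd hw0 hw hG
  have hC' : ∀ T : ℝ, 1 ≤ T → G w γ T ≤ C * T ^ ((2 : ℝ) - 1) := by
    intro T hT
    have e : (2 : ℝ) - 1 = 1 := by norm_num
    rw [e, Real.rpow_one]
    exact hC T hT
  have hlimK : Tendsto (fun K : ℝ => g * ∫ x in (0 : ℝ)..K, ph x) atTop (𝓝 (g * kap)) :=
    (intervalIntegral_tendsto_integral_Ioi 0 ph_integrable.integrableOn tendsto_id).const_mul g
  have hKinv : Tendsto (fun K : ℝ => 2 * KR 1 C * K⁻¹) atTop (𝓝 0) := by
    simpa using tendsto_inv_atTop_zero.const_mul (2 * KR 1 C)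
  rw [Metric.tendsto_nhds]
  intro ε hε
  obtain ⟨K, hK0, hK1, hK2⟩ := ((eventually_ge_atTop (1 : ℝ)).and
    (((Metric.tendsto_nhds.1 hlimK) (ε / 3) (by linarith)).and
      ((Metric.tendsto_nhds.1 hKinv) (ε / 3) (by linarith)))).exists
  have hKp : 0 < K := by linarith
  have h3 := (Metric.tendsto_nhds.1 (lim_K hw0 hw hG hKp)) (ε / 3) (by linarith)
  filter_upwards [h3, eventually_ge_atTop 1] with T hT hT1
  have hT0 : 0 < T := by linarith
  obtain ⟨h4, h5⟩ := split_U hw0 hw (γ := γ) (K := K) hT0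
  have h6 : R w γ (K * T) ≤ KR 1 C * (K * T) ^ (-1 : ℝ) :=
    R_bound hw0 hw one_pos hC' (by nlinarith)
  rw [Real.rpow_neg_one] at h6
  have h7 : 2 * T * R w γ (K * T) ≤ 2 * KR 1 C * K⁻¹ := by
    calc 2 * T * R w γ (K * T) ≤ 2 * T * (KR 1 C * (K * T)⁻¹) :=
          mul_le_mul_of_nonneg_left h6 (by linarith)
      _ = _ := by field_simp
  rw [Real.dist_eq] at hK1 hK2 hT ⊢
  rw [sub_zero] at hK2
  have h8 := abs_lt.1 hK1
  have h9 := abs_lt.1 hK2
  have h10 := abs_lt.1 hT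
  rw [abs_lt]
  constructor <;> linarith

end Pool.Agent.E8helper14.JM
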