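import Mathlib

/-!
# Weighted real sequences: the sums of `w (1 - cos (δ γ))` and of `γ ^ 2 w`, `|γ| ≤ T`
-/

set_option autoImplicit false

open Filter Topology MeasureTheory

namespace Pool.Agent.E8helper14.JM

variable {ι : Type} {w γ : ι → ℝ}

/-- `∑ w (1 - cos (δ γ))` -/
noncomputable def U (w γ : ι → ℝ) (δ : ℝ) : ℝ := ∑' i, w i * (1 - Real.cos (δ * γ i))

/-- `∑ γ ^ 2 w`, `|γ| ≤ T` -/
noncomputable def G (w γ : ι → ℝ) (T : ℝ) : ℝ := ∑' i, if |γ i| ≤ T then γ i ^ 2 * w i else 0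

/-- `∑ w`, `|γ| > T` -/
noncomputable def R (w γ : ι → ℝ) (T : ℝ) : ℝ := ∑' i, if T < |γ i| then w i else 0

theorem term_nonneg (hw0 : ∀ i, 0 ≤ w i) (δ : ℝ) (i : ι) : 0 ≤ w i * (1 - Real.cos (δ * γ i)) :=
  mul_nonneg (hw0 i) (by linarith [Real.cos_le_one (δ * γ i)])

theorem term_le (hw0 : ∀ i, 0 ≤ w i) (δ : ℝ) (i : ι) :
    w i * (1 - Real.cos (δ * γ i)) ≤ 2 * w i := by
  have h1 := Real.neg_one_le_cos (δ * γ i)
  nlinarith [hw0 i]

theorem summable_U (hw0 : ∀ i, 0 ≤ w i) (hw : Summable w) (δ : ℝ) :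
    Summable fun i => w i * (1 - Real.cos (δ * γ i)) :=
  Summable.of_nonneg_of_le (term_nonneg hw0 δ) (term_le hw0 δ) (hw.mul_left 2)

theorem gterm_nonneg (hw0 : ∀ i, 0 ≤ w i) (T : ℝ) (i : ι) :
    0 ≤ if |γ i| ≤ T then γ i ^ 2 * w i else 0 := by
  split_ifs
  · exact mul_nonneg (sq_nonneg _) (hw0 i)
  · exact le_rfl

theorem gterm_le (hw0 : ∀ i, 0 ≤ w i) (T : ℝ) (i : ι) :
    (if |γ i| ≤ T then γ i ^ 2 * w i else 0) ≤ T ^ 2 * w i := by
  split_ifs with h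
  · refine mul_le_mul_of_nonneg_right ?_ (hw0 i)
    rw [← sq_abs]
    exact pow_le_pow_left₀ (abs_nonneg _) h 2
  · exact mul_nonneg (sq_nonneg _) (hw0 i)

theorem summable_G (hw0 : ∀ i, 0 ≤ w i) (hw : Summable w) (T : ℝ) :
    Summable fun i => if |γ i| ≤ T then γ i ^ 2 * w i else 0 :=
  Summable.of_nonneg_of_le (gterm_nonneg hw0 T) (gterm_le hw0 T) (hw.mul_left _)

theorem rterm_nonneg (hw0 : ∀ i, 0 ≤ w i) (T : ℝ) (i : ι) : 0 ≤ if T < |γ i| then w i else 0 := by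
  split_ifs
  · exact hw0 i
  · exact le_rfl

theorem summable_R (hw0 : ∀ i, 0 ≤ w i) (hw : Summable w) (T : ℝ) :
    Summable fun i => if T < |γ i| then w i else 0 :=
  Summable.of_nonneg_of_le (rterm_nonneg hw0 T) (fun i => by
    split_ifs
    · exact le_rfl
    · exact hw0 i) hw

theorem U_nonneg (hw0 : ∀ i, 0 ≤ w i) (δ : ℝ) : 0 ≤ U w γ δ := tsum_nonneg (term_nonneg hw0 δ)

theorem U_le_two (hw0 : ∀ i, 0 ≤ w i) (hw : Summable w) (δ : ℝ) : U w γ δ ≤ 2 * ∑' i, w i := by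
  rw [U, ← tsum_mul_left]
  exact Summable.tsum_le_tsum (term_le hw0 δ) (summable_U hw0 hw δ) (hw.mul_left 2)

theorem U_neg (δ : ℝ) : U w γ (-δ) = U w γ δ := by
  unfold U
  refine tsum_congr fun i => ?_
  rw [neg_mul, Real.cos_neg]

theorem G_nonneg (hw0 : ∀ i, 0 ≤ w i) (T : ℝ) : 0 ≤ G w γ T := tsum_nonneg (gterm_nonneg hw0 T)

theorem R_nonneg (hw0 : ∀ i, 0 ≤ w i) (T : ℝ) : 0 ≤ R w γ T := tsum_nonneg (rterm_nonneg hw0 T)

theorem G_mono (hw0 : ∀ i, 0 ≤ w i) (hw : Summable w) {S T : ℝ} (h : S ≤ T) : G w γ S ≤ G w γ T := by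
  refine Summable.tsum_le_tsum (fun i => ?_) (summable_G hw0 hw S) (summable_G hw0 hw T)
  by_cases h1 : |γ i| ≤ S
  · rw [if_pos h1, if_pos (h1.trans h)]
  · rw [if_neg h1]
    exact gterm_nonneg hw0 T i

theorem sq_le_cos {x : ℝ} (hx : |x| ≤ 1) : x ^ 2 ≤ 5 * (1 - Real.cos x) := by
  have h1 := Real.cos_le_one_sub_mul_cos_sq (hx.trans (by linarith [Real.pi_gt_three]))
  have h2 : (2 : ℝ) / 10 ≤ 2 / Real.pi ^ 2 := by
    refine div_le_div_of_nonneg_left (by norm_num) (by positivity) ?_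
    nlinarith [Real.pi_lt_d2, Real.pi_pos]
  have h3 := mul_le_mul_of_nonneg_right h2 (sq_nonneg x)
  linarith

/-- `G T ≤ 5 T ^ 2 U (1 / T)` -/
theorem G_le_U (hw0 : ∀ i, 0 ≤ w i) (hw : Summable w) {T : ℝ} (hT : 0 < T) :
    G w γ T ≤ 5 * T ^ 2 * U w γ (1 / T) := by
  unfold G U
  rw [← tsum_mul_left]
  refine Summable.tsum_le_tsum (fun i => ?_) (summable_G hw0 hw T) ((summable_U hw0 hw _).mul_left _)
  have hn := term_nonneg hw0 (γ := γ) (1 / T) i
  split_ifs with h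
  · have h1 : |1 / T * γ i| ≤ 1 := by
      rw [abs_mul, abs_of_pos (by positivity : (0 : ℝ) < 1 / T), one_div, inv_mul_le_iff₀ hT, mul_one]
      exact h
    have h2 := sq_le_cos h1
    have h3 : γ i ^ 2 = T ^ 2 * (1 / T * γ i) ^ 2 := by
      field_simp
    calc γ i ^ 2 * w i = (T ^ 2 * w i) * (1 / T * γ i) ^ 2 := by rw [h3]; ring
      _ ≤ (T ^ 2 * w i) * (5 * (1 - Real.cos (1 / T * γ i))) :=
          mul_le_mul_of_nonneg_left h2 (mul_nonneg (sq_nonneg _) (hw0 i))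
      _ = _ := by ring
  · positivity

/-- `U (1 / T) ≤ G T / (2 T ^ 2) + 2 R T` -/
theorem U_le_G (hw0 : ∀ i, 0 ≤ w i) (hw : Summable w) {T : ℝ} (hT : 0 < T) :
    U w γ (1 / T) ≤ G w γ T / (2 * T ^ 2) + 2 * R w γ T := by
  unfold G U R
  rw [← tsum_mul_left, ← tsum_div_const, ← Summable.tsum_add ((summable_G hw0 hw T).div_const _)
    ((summable_R hw0 hw T).mul_left _)]
  refine Summable.tsum_le_tsum (fun i => ?_) (summable_U hw0 hw _)
    (((summable_G hw0 hw T).div_const _).add ((summable_R hw0 hw T).mul_left _))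
  by_cases h : |γ i| ≤ T
  · rw [if_pos h, if_neg (not_lt.2 h), mul_zero, add_zero]
    have h1 := Real.one_sub_sq_div_two_le_cos (x := 1 / T * γ i)
    have h2 : 1 - Real.cos (1 / T * γ i) ≤ (1 / T * γ i) ^ 2 / 2 := by linarith
    calc w i * (1 - Real.cos (1 / T * γ i)) ≤ w i * ((1 / T * γ i) ^ 2 / 2) :=
          mul_le_mul_of_nonneg_left h2 (hw0 i)
      _ = _ := by field_simp
  · rw [if_neg h, if_pos (not_le.1 h), zero_div, zero_add]
    exact term_le hw0 _ i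

/-- `R T ≤ G (2 T) / T ^ 2 + R (2 T)` -/
theorem R_step (hw0 : ∀ i, 0 ≤ w i) (hw : Summable w) {T : ℝ} (hT : 0 < T) :
    R w γ T ≤ G w γ (2 * T) / T ^ 2 + R w γ (2 * T) := by
  unfold G R
  rw [← tsum_div_const, ← Summable.tsum_add ((summable_G hw0 hw _).div_const _)
    (summable_R hw0 hw _)]
  refine Summable.tsum_le_tsum (fun i => ?_) (summable_R hw0 hw _)
    (((summable_G hw0 hw _).div_const _).add (summable_R hw0 hw _))
  by_cases h1 : T < |γ i|
  · rw [if_pos h1]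
    by_cases h2 : |γ i| ≤ 2 * T
    · rw [if_pos h2, if_neg (not_lt.2 h2), add_zero, le_div_iff₀ (by positivity), mul_comm]
      refine mul_le_mul_of_nonneg_right ?_ (hw0 i)
      rw [← sq_abs (γ i)]
      exact pow_le_pow_left₀ hT.le h1.le 2
    · rw [if_neg h2, if_pos (not_le.1 h2), zero_div, zero_add]
  · rw [if_neg h1]
    exact add_nonneg (div_nonneg (gterm_nonneg hw0 _ i) (sq_nonneg _)) (rterm_nonneg hw0 _ i)

theorem R_tendsto (hw0 : ∀ i, 0 ≤ w i) (hw : Summable w) : Tendsto (R w γ) atTop (𝓝 0) := by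
  have h := tendsto_tsum_of_dominated_convergence (𝓕 := atTop)
    (f := fun (T : ℝ) (i : ι) => if T < |γ i| then w i else 0) (g := fun _ => (0 : ℝ)) (bound := w) hw
    (fun i => ?_) (Eventually.of_forall fun T i => ?_)
  · rw [tsum_zero] at h
    exact h
  · refine tendsto_const_nhds.congr' ?_
    filter_upwards [eventually_ge_atTop |γ i|] with T hT
    rw [if_neg (not_lt.2 hT)]
  · rw [Real.norm_of_nonneg (rterm_nonneg hw0 T i)]
    split_ifs
    · exact le_rfl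
    · exact hw0 i

/-- the constant in the bound for the tail -/
noncomputable def KR (β C : ℝ) : ℝ := 4 * C / (1 - (2 : ℝ) ^ (-β))

theorem two_lt_one {β : ℝ} (hβ : 0 < β) : (2 : ℝ) ^ (-β) < 1 :=
  Real.rpow_lt_one_of_one_lt_of_neg (by norm_num) (by linarith)

theorem R_bound (hw0 : ∀ i, 0 ≤ w i) (hw : Summable w) {β C : ℝ} (hβ : 0 < β)
    (hG : ∀ T : ℝ, 1 ≤ T → G w γ T ≤ C * T ^ (2 - β)) {T : ℝ} (hT : 1 ≤ T) :
    R w γ T ≤ KR β C * T ^ (-β) := by
  have hT0 : 0 < T := by linarith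
  have hC : 0 ≤ C := by
    have h1 := hG 1 le_rfl
    rw [Real.one_rpow, mul_one] at h1
    exact (G_nonneg hw0 1).trans h1
  have h2 := two_lt_one hβ
  have h2p : (0 : ℝ) < 2 ^ (-β) := by positivity
  have hD : KR β C * (1 - (2 : ℝ) ^ (-β)) = 4 * C := by
    unfold KR
    rw [div_mul_cancel₀]
    linarith
  have key : ∀ n : ℕ, R w γ T ≤ KR β C * (1 - ((2 : ℝ) ^ (-β)) ^ n) * T ^ (-β) + R w γ (2 ^ n * T) := by
    intro n
    induction n with
    | zero => simp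
    | succ n ih =>
      refine ih.trans ?_
      have hx : (1 : ℝ) ≤ 2 ^ n * T := by
        have : (1 : ℝ) ≤ 2 ^ n := one_le_pow₀ (by norm_num)
        nlinarith
      have hx0 : 0 < (2 : ℝ) ^ n * T := by linarith
      have h3 := R_step hw0 hw (γ := γ) hx0
      have h4 := hG (2 * (2 ^ n * T)) (by linarith)
      have h5 : (2 * (2 ^ n * T) : ℝ) ^ (2 - β) ≤ 4 * (2 ^ n * T) ^ 2 * (((2 : ℝ) ^ (-β)) ^ n * T ^ (-β)) := by
        have e1 : (2 * (2 ^ n * T) : ℝ) ^ (2 - β) = 2 ^ (2 - β) * (2 ^ n * T) ^ (2 - β) :=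
          Real.mul_rpow (by norm_num) hx0.le
        have e2 : ((2 : ℝ) ^ n * T) ^ (2 - β) = (2 ^ n * T) ^ 2 * ((2 ^ n * T) ^ (-β)) := by
          rw [← Real.rpow_natCast (2 ^ n * T) 2, ← Real.rpow_add hx0]
          congr 1
        have e3 : ((2 : ℝ) ^ n * T) ^ (-β) = ((2 : ℝ) ^ (-β)) ^ n * T ^ (-β) := by
          rw [Real.mul_rpow (by positivity) hT0.le]
          congr 1
          rw [← Real.rpow_natCast, ← Real.rpow_natCast, ← Real.rpow_mul (by norm_num),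
            ← Real.rpow_mul (by norm_num), mul_comm]
        have e4 : (2 : ℝ) ^ (2 - β) ≤ 4 := by
          have : (2 : ℝ) ^ (2 - β) ≤ 2 ^ (2 : ℝ) := Real.rpow_le_rpow_of_exponent_le (by norm_num) (by linarith)
          refine this.trans (le_of_eq ?_)
          norm_num
        rw [e1, e2, e3]
        have e5 : 0 ≤ (2 ^ n * T) ^ 2 * (((2 : ℝ) ^ (-β)) ^ n * T ^ (-β)) := by positivity
        calc (2 : ℝ) ^ (2 - β) * ((2 ^ n * T) ^ 2 * (((2 : ℝ) ^ (-β)) ^ n * T ^ (-β))) ≤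
            4 * ((2 ^ n * T) ^ 2 * (((2 : ℝ) ^ (-β)) ^ n * T ^ (-β))) :=
              mul_le_mul_of_nonneg_right e4 e5
          _ = _ := by ring
      have h6 : G w γ (2 * (2 ^ n * T)) / (2 ^ n * T) ^ 2 ≤ 4 * C * (((2 : ℝ) ^ (-β)) ^ n * T ^ (-β)) := by
        rw [div_le_iff₀ (by positivity)]
        refine h4.trans ((mul_le_mul_of_nonneg_left h5 hC).trans (le_of_eq ?_))
        ring
      have e7 : (2 : ℝ) ^ (n + 1) * T = 2 * (2 ^ n * T) := by ring
      rw [e7]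
      have h8 : KR β C * (1 - ((2 : ℝ) ^ (-β)) ^ (n + 1)) * T ^ (-β) =
          KR β C * (1 - ((2 : ℝ) ^ (-β)) ^ n) * T ^ (-β) + 4 * C * (((2 : ℝ) ^ (-β)) ^ n * T ^ (-β)) := by
        rw [← hD]
        ring
      rw [h8]
      linarith
  have hlim : Tendsto (fun n : ℕ => KR β C * (1 - ((2 : ℝ) ^ (-β)) ^ n) * T ^ (-β) + R w γ (2 ^ n * T))
      atTop (𝓝 (KR β C * (1 - 0) * T ^ (-β) + 0)) := by
    refine Tendsto.add ?_ ?_
    · refine Tendsto.mul_const _ (Tendsto.const_mul _ (Tendsto.const_sub _ ?_))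
      exact tendsto_pow_atTop_nhds_zero_of_lt_one h2p.le h2
    · refine (R_tendsto hw0 hw).comp ?_
      exact (tendsto_pow_atTop_atTop_of_one_lt (by norm_num : (1 : ℝ) < 2)).atTop_mul_const hT0
  have h9 := ge_of_tendsto' hlim key
  simpa using h9

/-- Upper bounds, from `U` to `G`. -/
theorem G_of_U (hw0 : ∀ i, 0 ≤ w i) (hw : Summable w) {β C : ℝ}
    (hU : ∀ δ : ℝ, 0 < δ → δ ≤ 1 → U w γ δ ≤ C * δ ^ β) {T : ℝ} (hT : 1 ≤ T) :
    G w γ T ≤ 5 * C * T ^ (2 - β) := by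
  have hT0 : 0 < T := by linarith
  refine (G_le_U hw0 hw hT0).trans ?_
  have h1 := hU (1 / T) (by positivity) ((div_le_one hT0).2 hT)
  have h2 : (1 / T) ^ β = T ^ (-β) := by
    rw [one_div, Real.inv_rpow hT0.le, Real.rpow_neg hT0.le]
  rw [h2] at h1
  have h3 : T ^ (2 - β) = T ^ 2 * T ^ (-β) := by
    rw [← Real.rpow_natCast T 2, ← Real.rpow_add hT0]
    congr 1
  rw [h3]
  calc 5 * T ^ 2 * U w γ (1 / T) ≤ 5 * T ^ 2 * (C * T ^ (-β)) :=
        mul_le_mul_of_nonneg_left h1 (by positivity)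
    _ = _ := by ring

/-- Upper bounds, from `G` to `U`. -/
theorem U_of_G (hw0 : ∀ i, 0 ≤ w i) (hw : Summable w) {β C : ℝ} (hβ : 0 < β)
    (hG : ∀ T : ℝ, 1 ≤ T → G w γ T ≤ C * T ^ (2 - β)) {δ : ℝ} (hδ : 0 < δ) (hδ1 : δ ≤ 1) :
    U w γ δ ≤ (C / 2 + 2 * KR β C) * δ ^ β := by
  have hT : 1 ≤ 1 / δ := (one_le_div hδ).2 hδ1
  have hT0 : 0 < 1 / δ := by positivity
  have h1 := U_le_G hw0 hw (γ := γ) hT0
  rw [one_div_one_div] at h1
  have h2 := R_bound hw0 hw (γ := γ) hβ hG hT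
  have h3 := hG (1 / δ) hT
  have h4 : (1 / δ) ^ (2 - β) = (1 / δ) ^ 2 * (1 / δ) ^ (-β) := by
    rw [← Real.rpow_natCast (1 / δ) 2, ← Real.rpow_add hT0]
    congr 1
  have h5 : (1 / δ) ^ (-β) = δ ^ β := by
    rw [one_div, Real.inv_rpow hδ.le, Real.rpow_neg hδ.le, inv_inv]
  rw [h5] at h2 h4
  rw [h4] at h3
  have h6 : G w γ (1 / δ) / (2 * (1 / δ) ^ 2) ≤ C / 2 * δ ^ β := by
    rw [div_le_iff₀ (by positivity)]
    refine h3.trans (le_of_eq ?_)
    ring
  calc U w γ δ ≤ G w γ (1 / δ) / (2 * (1 / δ) ^ 2) + 2 * R w γ (1 / δ) := h1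
    _ ≤ C / 2 * δ ^ β + 2 * (KR β C * δ ^ β) := by linarith
    _ = _ := by ring

/-- The weights are summable if `G` grows more slowly than `T ^ 2`. -/
theorem summable_of_G (hw0 : ∀ i, 0 ≤ w i) (hfin : ∀ T : ℝ, {i | |γ i| ≤ T}.Finite) {β C : ℝ}
    (hβ : 0 < β) (hG : ∀ T : ℝ, 1 ≤ T → G w γ T ≤ C * T ^ (2 - β)) : Summable w := by
  classical
  have hs1 : Summable fun i => if |γ i| ≤ 1 then w i else 0 := by
    refine summable_of_hasFiniteSupport ((hfin 1).subset fun i hi => ?_)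
    by_contra h
    exact hi (if_neg h)
  have hsG : ∀ T : ℝ, Summable fun i => if |γ i| ≤ T then γ i ^ 2 * w i else 0 := by
    intro T
    refine summable_of_hasFiniteSupport ((hfin T).subset fun i hi => ?_)
    by_contra h
    exact hi (if_neg h)
  refine summable_of_sum_le hw0 (c := (∑' i, if |γ i| ≤ 1 then w i else 0) + KR β C * 1 ^ (-β)) fun s => ?_
  set w' : ι → ℝ := fun i => if i ∈ s then w i else 0 with hw'
  have hw'0 : ∀ i, 0 ≤ w' i := by
    intro i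
    simp only [hw']
    split_ifs
    · exact hw0 i
    · exact le_rfl
  have hw'w : ∀ i, w' i ≤ w i := by
    intro i
    simp only [hw']
    split_ifs
    · exact le_rfl
    · exact hw0 i
  have hs' : Summable w' := by
    refine summable_of_hasFiniteSupport (s.finite_toSet.subset fun i hi => ?_)
    by_contra h
    exact hi (if_neg h)
  have hG' : ∀ T : ℝ, 1 ≤ T → G w' γ T ≤ C * T ^ (2 - β) := by
    intro T hT
    refine le_trans ?_ (hG T hT)
    refine Summable.tsum_le_tsum (fun i => ?_) (summable_G hw'0 hs' T) (hsG T)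
    split_ifs
    · exact mul_le_mul_of_nonneg_left (hw'w i) (sq_nonneg _)
    · exact le_rfl
  have h1 := R_bound hw'0 hs' (γ := γ) hβ hG' le_rfl
  have h2 : ∑ i ∈ s, w i = ∑' i, w' i := by
    rw [tsum_eq_sum (s := s) fun i hi => if_neg hi]
    exact Finset.sum_congr rfl fun i hi => (if_pos hi).symm
  have h3 : ∑' i, w' i = (∑' i, if |γ i| ≤ 1 then w' i else 0) + R w' γ 1 := by
    unfold R
    rw [← Summable.tsum_add _ (summable_R hw'0 hs' 1)]
    · refine tsum_congr fun i => ?_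
      by_cases h : |γ i| ≤ 1
      · rw [if_pos h, if_neg (not_lt.2 h), add_zero]
      · rw [if_neg h, if_pos (not_le.1 h), zero_add]
    · exact Summable.of_nonneg_of_le (fun i => by
        split_ifs
        · exact hw'0 i
        · exact le_rfl) (fun i => by
        split_ifs
        · exact le_rfl
        · exact hw'0 i) hs'
  have h4 : (∑' i, if |γ i| ≤ 1 then w' i else 0) ≤ ∑' i, if |γ i| ≤ 1 then w i else 0 := by
    refine Summable.tsum_le_tsum (fun i => ?_) ?_ hs1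
    · split_ifs
      · exact hw'w i
      · exact le_rfl
    · exact Summable.of_nonneg_of_le (fun i => by
        split_ifs
        · exact hw'0 i
        · exact le_rfl) (fun i => by
        split_ifs
        · exact le_rfl
        · exact hw'0 i) hs'
  rw [h2, h3]
  linarith

end Pool.Agent.E8helper14.JM
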