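import Pool.Agent.E8helper14.JM.Zeros
import Pool.Agent.Results.MP_323ce2_nt.CoprimeWeightedBlocks

/-!
# The mean square of the Mertens function over blocks and the sums of `1 / |ζ'(ρ)| ^ 2`
-/

set_option autoImplicit false

open Filter Topology MeasureTheory Set

namespace Pool.Agent.E8helper14.JM

/-- the Mertens function -/
noncomputable def M (u : ℝ) : ℝ := ∑ n ∈ Finset.Icc 1 ⌊u⌋₊, ((ArithmeticFunction.moebius n : ℤ) : ℝ)

/-- the weak Mertens hypothesis -/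
def WeakMertens : Prop := ∃ C : ℝ, ∀ x : ℝ, 2 ≤ x → ∫ u in (1:ℝ)..x, (M u / u) ^ 2 ≤ C * Real.log x

/-- the mean square of the sums over the blocks `((1 - h) u, u]` -/
noncomputable def B (h x : ℝ) : ℝ := ∫ u in (1:ℝ)..x, ((M u - M ((1 - h) * u)) / u) ^ 2

/-- the Riemann Hypothesis holds and the zeros are simple -/
def RHS : Prop := ∀ ρ ∈ NT, ρ.re = 1 / 2 ∧ deriv riemannZeta ρ ≠ 0

theorem S_eq (u : ℝ) : Pool.Agent.Results.MP_323ce2_nt.CoprimeWeightedBlocks.S 1 0 u = M u := by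
  unfold Pool.Agent.Results.MP_323ce2_nt.CoprimeWeightedBlocks.S M
  rw [Finset.filter_true_of_mem fun n _ => Nat.coprime_one_right n]
  refine Finset.sum_congr rfl fun n _ => ?_
  rw [neg_zero, Real.rpow_zero, mul_one]

theorem WM_iff : WeakMertens ↔ RHS ∧ Summable wt := Pool.Agent.TH223.AP.WM_iff_ZC

theorem norm_eq {ρ : ℂ} (hρ : ρ.re = 1 / 2) {h : ℝ} (h1 : h < 1) :
    ‖1 - ((1 - h : ℝ) : ℂ) ^ ρ‖ ^ 2 =
      (1 - √(1 - h)) ^ 2 + 2 * √(1 - h) * (1 - Real.cos (dl h * ρ.im)) := by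
  have ht : 0 < 1 - h := by linarith
  have ht' : ((1 - h : ℝ) : ℂ) ≠ 0 := by exact_mod_cast ht.ne'
  have e1 : ((1 - h : ℝ) : ℂ) ^ ρ = ((√(1 - h) : ℝ) : ℂ) * Complex.exp (((-(dl h * ρ.im) : ℝ) : ℂ) * Complex.I) := by
    rw [Complex.cpow_def_of_ne_zero ht', ← Complex.ofReal_log ht.le]
    have e2 : (√(1 - h) : ℝ) = Real.exp (Real.log (1 - h) / 2) := by
      rw [← Real.log_sqrt ht.le, Real.exp_log (Real.sqrt_pos.2 ht)]
    rw [e2, Complex.ofReal_exp, ← Complex.exp_add]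
    congr 1
    unfold dl
    apply Complex.ext
    · simp [hρ]
      ring
    · simp
  have hs : √(1 - h) ^ 2 = 1 - h := Real.sq_sqrt ht.le
  rw [e1, ← Complex.normSq_eq_norm_sq, Complex.normSq_apply]
  have r1 : (1 - ((√(1 - h) : ℝ) : ℂ) * Complex.exp (((-(dl h * ρ.im) : ℝ) : ℂ) * Complex.I)).re =
      1 - √(1 - h) * Real.cos (dl h * ρ.im) := by
    rw [Complex.sub_re, Complex.re_ofReal_mul, Complex.exp_ofReal_mul_I_re, Real.cos_neg, Complex.one_re]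
  have r2 : (1 - ((√(1 - h) : ℝ) : ℂ) * Complex.exp (((-(dl h * ρ.im) : ℝ) : ℂ) * Complex.I)).im =
      √(1 - h) * Real.sin (dl h * ρ.im) := by
    rw [Complex.sub_im, Complex.im_ofReal_mul, Complex.exp_ofReal_mul_I_im, Real.sin_neg, Complex.one_im]
    ring
  rw [r1, r2]
  have h3 := Real.sin_sq_add_cos_sq (dl h * ρ.im)
  linear_combination (√(1 - h)) ^ 2 * h3

theorem sum_eq (hR : RHS) (hw : Summable wt) {h : ℝ} (h1 : h < 1) :
    ∑' ρ : NT, ‖1 - ((1 - h : ℝ) : ℂ) ^ ((ρ : ℂ) - (0 : ℝ))‖ ^ 2 / ‖((ρ : ℂ) - (0 : ℝ)) * deriv riemannZeta ρ *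
      Pool.Agent.Results.MP_323ce2_nt.CoprimeWeightedBlocks.euler 1 ρ‖ ^ 2 = Vf wt gm h := by
  have e1 : ∀ ρ : NT, ‖1 - ((1 - h : ℝ) : ℂ) ^ ((ρ : ℂ) - (0 : ℝ))‖ ^ 2 / ‖((ρ : ℂ) - (0 : ℝ)) * deriv riemannZeta ρ *
      Pool.Agent.Results.MP_323ce2_nt.CoprimeWeightedBlocks.euler 1 ρ‖ ^ 2 =
      (1 - √(1 - h)) ^ 2 * wt ρ + 2 * √(1 - h) * (wt ρ * (1 - Real.cos (dl h * gm ρ))) := by
    intro ρ
    have e2 : Pool.Agent.Results.MP_323ce2_nt.CoprimeWeightedBlocks.euler 1 ρ = 1 := by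
      simp [Pool.Agent.Results.MP_323ce2_nt.CoprimeWeightedBlocks.euler]
    rw [e2, mul_one, Complex.ofReal_zero, sub_zero, norm_eq (hR ρ ρ.2).1 h1]
    unfold wt gm
    ring
  rw [tsum_congr e1, (hw.mul_left _).tsum_add ((summable_U wt_nonneg hw _).mul_left _), tsum_mul_left,
    tsum_mul_left]
  rfl

theorem lawB {h : ℝ} (h0 : 0 < h) (h1 : h < 1) :
    (WeakMertens ↔ ∃ C : ℝ, ∃ᶠ x : ℝ in atTop, B h x ≤ C * Real.log x) ∧
    (WeakMertens → Tendsto (fun x : ℝ => B h x / Real.log x) atTop (𝓝 (Vf wt gm h))) ∧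
    (¬ WeakMertens → Tendsto (fun x : ℝ => B h x / Real.log x) atTop atTop) := by
  obtain ⟨-, l2, l3, l4⟩ := Pool.Agent.Results.MP_323ce2_nt.CoprimeWeightedBlocks.result 1 le_rfl 0
    (by norm_num) (1 - h) (by linarith) (by linarith)
  have e : ∀ x : ℝ, (∫ u in (1:ℝ)..x, (u ^ ((0:ℝ) - 1) *
      (Pool.Agent.Results.MP_323ce2_nt.CoprimeWeightedBlocks.S 1 0 u -
        Pool.Agent.Results.MP_323ce2_nt.CoprimeWeightedBlocks.S 1 0 ((1 - h) * u))) ^ 2) = B h x := by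
    intro x
    unfold B
    refine intervalIntegral.integral_congr fun u _ => ?_
    rw [S_eq, S_eq, zero_sub, Real.rpow_neg_one]
    ring
  simp only [e] at l2 l3 l4
  refine ⟨l2, fun hW => ?_, l4⟩
  obtain ⟨-, -, h3⟩ := l3 hW
  obtain ⟨hR, hw⟩ := WM_iff.1 hW
  rw [← sum_eq hR hw h1]
  exact h3

/-- from the zeros to the blocks -/
theorem main1 {β : ℝ} (hβ : 0 < β) (hβ2 : β < 2) (hR : RHS)
    (hJ : ∃ C : ℝ, ∀ T : ℝ, 1 ≤ T → J T ≤ C * T ^ (2 - β)) :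
    ∃ C : ℝ, ∀ h : ℝ, 0 < h → h < 1 → ∀ᶠ x : ℝ in atTop, B h x ≤ C * h ^ β * Real.log x := by
  obtain ⟨C, hC⟩ := hJ
  have hRH : ∀ ρ ∈ NT, ρ.re = 1 / 2 := fun ρ hρ => (hR ρ hρ).1
  have hw : Summable wt := wt_summable hRH hβ hC
  have hW : WeakMertens := WM_iff.2 ⟨hR, hw⟩
  have hU : ∀ δ : ℝ, 0 < δ → δ ≤ 1 → U wt gm δ ≤ (2 * C / 2 + 2 * KR β (2 * C)) * δ ^ β := fun δ hδ hδ1 =>
    U_of_G wt_nonneg hw hβ (G_of_J hRH hC) hδ hδ1
  obtain ⟨C', hC'⟩ := Vf_le wt_nonneg hw hβ hβ2 hU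
  refine ⟨C' + 1, fun h h0 h1 => ?_⟩
  have h2 := (lawB h0 h1).2.1 hW
  have h3 : 0 < h ^ β := Real.rpow_pos_of_pos h0 β
  have h4 : Vf wt gm h < (C' + 1) * h ^ β := by
    have := hC' h h0 h1
    linarith
  filter_upwards [h2.eventually (eventually_lt_nhds h4), eventually_gt_atTop 1] with x hx hx1
  exact ((div_lt_iff₀ (Real.log_pos hx1)).1 hx).le

/-- from the blocks to the zeros -/
theorem main2 {β : ℝ} (hβ : 0 < β) (hβ2 : β < 2) {C h₀ : ℝ} (hh₀ : 0 < h₀)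
    (hB : ∀ h : ℝ, 0 < h → h < h₀ → ∃ᶠ x : ℝ in atTop, B h x ≤ C * h ^ β * Real.log x) :
    RHS ∧ ∃ C : ℝ, ∀ T : ℝ, 1 ≤ T → J T ≤ C * T ^ (2 - β) := by
  have hm : 0 < min h₀ 1 := lt_min hh₀ one_pos
  have hW : WeakMertens := by
    have ha : 0 < min h₀ 1 / 2 := by positivity
    have hb : min h₀ 1 / 2 < h₀ := by
      have := min_le_left h₀ 1
      linarith
    have hc : min h₀ 1 / 2 < 1 := by
      have := min_le_right h₀ 1
      linarith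
    exact (lawB ha hc).1.2 ⟨_, hB _ ha hb⟩
  obtain ⟨hR, hw⟩ := WM_iff.1 hW
  have hV : ∀ h : ℝ, 0 < h → h < min h₀ 1 → Vf wt gm h ≤ C * h ^ β := by
    intro h h0 h1
    have h2 := (lawB h0 (h1.trans_le (min_le_right _ _))).2.1 hW
    have h3 := hB h h0 (h1.trans_le (min_le_left _ _))
    by_contra hlt
    push Not at hlt
    have h4 := h2.eventually (eventually_gt_nhds hlt)
    obtain ⟨x, hx, hx2, hx3⟩ := (h3.and_eventually (h4.and (eventually_gt_atTop 1))).exists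
    have := (lt_div_iff₀ (Real.log_pos hx3)).1 hx2
    linarith
  obtain ⟨C₁, hC₁⟩ := U_of_Vf wt_nonneg hw hβ hm hV
  exact ⟨hR, _, J_of_G (fun ρ hρ => (hR ρ hρ).1) hw hβ2 fun T hT => G_of_U wt_nonneg hw hC₁ hT⟩

theorem lim_WM {V : ℝ → ℝ} (hV : ∀ h : ℝ, 0 < h → h < 1 → Tendsto (fun x : ℝ => B h x / Real.log x) atTop (𝓝 (V h))) :
    WeakMertens ∧ ∀ h : ℝ, 0 < h → h < 1 → V h = Vf wt gm h := by
  have hW : WeakMertens := by
    by_contra hW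
    have h1 := (lawB (h := 1 / 2) (by norm_num) (by norm_num)).2.2 hW
    exact not_tendsto_nhds_of_tendsto_atTop h1 _ (hV (1 / 2) (by norm_num) (by norm_num))
  exact ⟨hW, fun h h0 h1 => tendsto_nhds_unique (hV h h0 h1) ((lawB h0 h1).2.1 hW)⟩

/-- the asymptotic formula -/
theorem main3 (c : ℝ) : (RHS ∧ Tendsto (fun T => J T / T) atTop (𝓝 c)) ↔
    ∃ V : ℝ → ℝ, (∀ h : ℝ, 0 < h → h < 1 → Tendsto (fun x : ℝ => B h x / Real.log x) atTop (𝓝 (V h))) ∧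
      Tendsto (fun h => V h / h) (𝓝[>] 0) (𝓝 (2 * Real.pi * c)) := by
  constructor
  · rintro ⟨hR, hJ⟩
    have hRH : ∀ ρ ∈ NT, ρ.re = 1 / 2 := fun ρ hρ => (hR ρ hρ).1
    obtain ⟨C, hC⟩ := J_bdd hJ
    have hC' : ∀ T : ℝ, 1 ≤ T → J T ≤ C * T ^ ((2 : ℝ) - 1) := by
      intro T hT
      have e : (2 : ℝ) - 1 = 1 := by norm_num
      rw [e, Real.rpow_one]
      exact hC T hT
    have hw : Summable wt := wt_summable hRH one_pos hC'
    have hW : WeakMertens := WM_iff.2 ⟨hR, hw⟩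
    refine ⟨Vf wt gm, fun h h0 h1 => (lawB h0 h1).2.1 hW, ?_⟩
    have h1 := Vf_lim.1 (abelian wt_nonneg hw ((J_lim hRH hw).1 hJ))
    have e : 2 * (2 * c * kap) = 2 * Real.pi * c := by
      rw [kap_eq]
      ring
    rwa [e] at h1
  · rintro ⟨V, hV, hV2⟩
    obtain ⟨hW, hVe⟩ := lim_WM hV
    obtain ⟨hR, hw⟩ := WM_iff.1 hW
    refine ⟨hR, (J_lim (fun ρ hρ => (hR ρ hρ).1) hw).2 ?_⟩
    have h1 : Tendsto (fun h => Vf wt gm h / h) (𝓝[>] 0) (𝓝 (2 * (Real.pi * c))) := by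
      rw [← mul_assoc]
      refine hV2.congr' ?_
      filter_upwards [hpos, hlt] with h h0 h1
      rw [hVe h h0 h1]
    have h2 := tauberian wt_nonneg hw (Vf_lim.2 h1)
    have e : Real.pi * c / kap = 2 * c := by
      rw [kap_eq]
      field_simp
    rwa [e] at h2

/-- the weak Mertens hypothesis -/
theorem main4 : WeakMertens ↔
    ∃ V : ℝ → ℝ, (∀ h : ℝ, 0 < h → h < 1 → Tendsto (fun x : ℝ => B h x / Real.log x) atTop (𝓝 (V h))) ∧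
      Tendsto V (𝓝[>] 0) (𝓝 0) := by
  constructor
  · intro hW
    obtain ⟨hR, hw⟩ := WM_iff.1 hW
    exact ⟨Vf wt gm, fun h h0 h1 => (lawB h0 h1).2.1 hW, Vf_zero wt_nonneg hw⟩
  · rintro ⟨V, hV, -⟩
    exact (lim_WM hV).1

end Pool.Agent.E8helper14.JM
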