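import Pool.Agent.E8helper14.JM.Taub2

/-!
# From `U` to the limits of the block mean squares
-/

set_option autoImplicit false

open Filter Topology MeasureTheory Set

namespace Pool.Agent.E8helper14.JM

variable {ι : Type} {w γ : ι → ℝ}

/-- `-log (1 - h)` -/
noncomputable def dl (h : ℝ) : ℝ := -Real.log (1 - h)

/-- `∑ w |1 - (1 - h) ^ (1 / 2 + i γ)| ^ 2` -/
noncomputable def Vf (w γ : ι → ℝ) (h : ℝ) : ℝ :=
  (1 - √(1 - h)) ^ 2 * (∑' i, w i) + 2 * √(1 - h) * U w γ (dl h)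

theorem dl_pos {h : ℝ} (h0 : 0 < h) (h1 : h < 1) : 0 < dl h := by
  unfold dl
  have := Real.log_neg (by linarith : 0 < 1 - h) (by linarith)
  linarith

theorem h_le_dl {h : ℝ} (h1 : h < 1) : h ≤ dl h := by
  unfold dl
  have := Real.log_le_sub_one_of_pos (by linarith : 0 < 1 - h)
  linarith

theorem dl_le {h : ℝ} (h0 : 0 < h) (h1 : h ≤ 1 / 2) : dl h ≤ 2 * h := by
  unfold dl
  have h2 := Real.log_le_sub_one_of_pos (one_div_pos.2 (by linarith : 0 < 1 - h))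
  rw [one_div, Real.log_inv] at h2
  have h3 : (1 - h)⁻¹ - 1 ≤ 2 * h := by
    rw [sub_le_iff_le_add, inv_le_iff_one_le_mul₀ (by linarith)]
    nlinarith
  linarith

theorem sqrt_facts {h : ℝ} (h0 : 0 < h) (h1 : h < 1) : 0 ≤ 1 - √(1 - h) ∧ 1 - √(1 - h) ≤ h := by
  have h2 : √(1 - h) ≤ 1 := by
    rw [Real.sqrt_le_one]
    linarith
  refine ⟨by linarith, ?_⟩
  have h3 : 1 - h ≤ √(1 - h) := by
    apply Real.le_sqrt_of_sq_le
    nlinarith
  linarith

theorem Vf_nonneg (hw0 : ∀ i, 0 ≤ w i) (h : ℝ) : 0 ≤ Vf w γ h := by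
  unfold Vf
  have := U_nonneg hw0 (γ := γ) (dl h)
  have h2 : 0 ≤ ∑' i, w i := tsum_nonneg hw0
  positivity

theorem Vf_le (hw0 : ∀ i, 0 ≤ w i) (hw : Summable w) {β C : ℝ} (hβ : 0 < β) (hβ2 : β < 2)
    (hU : ∀ δ : ℝ, 0 < δ → δ ≤ 1 → U w γ δ ≤ C * δ ^ β) :
    ∃ C' : ℝ, ∀ h : ℝ, 0 < h → h < 1 → Vf w γ h ≤ C' * h ^ β := by
  have hW : 0 ≤ ∑' i, w i := tsum_nonneg hw0
  have hC : 0 ≤ C := by
    have := hU 1 one_pos le_rfl
    rw [Real.one_rpow, mul_one] at this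
    exact (U_nonneg hw0 _).trans this
  have h2β : (0 : ℝ) < 2 ^ β := by positivity
  refine ⟨5 * (∑' i, w i) * 2 ^ β + 2 * C * 2 ^ β + ∑' i, w i, fun h h0 h1 => ?_⟩
  obtain ⟨s1, s2⟩ := sqrt_facts h0 h1
  have hs : √(1 - h) ≤ 1 := by linarith
  have hs0 : 0 ≤ √(1 - h) := Real.sqrt_nonneg _
  have hhβ : 0 < h ^ β := Real.rpow_pos_of_pos h0 β
  rcases le_or_gt h (1 / 2) with h3 | h3
  · have hd := dl_pos h0 h1
    have hd2 := dl_le h0 h3
    have e1 : U w γ (dl h) ≤ C * (2 ^ β * h ^ β) := by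
      refine (hU (dl h) hd (by linarith)).trans (mul_le_mul_of_nonneg_left ?_ hC)
      rw [← Real.mul_rpow (by norm_num) h0.le]
      exact Real.rpow_le_rpow hd.le hd2 hβ.le
    have e2 : (1 - √(1 - h)) ^ 2 ≤ h ^ β := by
      have e3 : (1 - √(1 - h)) ^ 2 ≤ h ^ 2 := pow_le_pow_left₀ s1 s2 2
      have e4 : h ^ (2 : ℝ) ≤ h ^ β := Real.rpow_le_rpow_of_exponent_ge h0 h1.le hβ2.le
      rw [Real.rpow_two] at e4
      exact e3.trans e4
    unfold Vf
    have e5 : 2 * √(1 - h) * U w γ (dl h) ≤ 2 * 1 * (C * (2 ^ β * h ^ β)) := by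
      refine mul_le_mul (by linarith) e1 (U_nonneg hw0 _) (by norm_num)
    have e6 := mul_le_mul_of_nonneg_right e2 hW
    have e7 : 0 ≤ 5 * (∑' i, w i) * 2 ^ β * h ^ β := by positivity
    nlinarith
  · have e1 := U_le_two hw0 hw (γ := γ) (dl h)
    have e2 : (1 - √(1 - h)) ^ 2 ≤ 1 := by nlinarith
    have e3 : 2 * √(1 - h) * U w γ (dl h) ≤ 2 * 1 * (2 * ∑' i, w i) := by
      refine mul_le_mul (by linarith) e1 (U_nonneg hw0 _) (by norm_num)
    have e4 := mul_le_mul_of_nonneg_right e2 hW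
    have e5 : 1 ≤ 2 ^ β * h ^ β := by
      rw [← Real.mul_rpow (by norm_num) h0.le]
      exact Real.one_le_rpow (by linarith) hβ.le
    have e6 : 5 * (∑' i, w i) * 1 ≤ 5 * (∑' i, w i) * (2 ^ β * h ^ β) :=
      mul_le_mul_of_nonneg_left e5 (by positivity)
    have e7 : 0 ≤ 2 * C * 2 ^ β * h ^ β := by positivity
    have e8 : 0 ≤ (∑' i, w i) * h ^ β := by positivity
    unfold Vf
    nlinarith

theorem U_of_Vf (hw0 : ∀ i, 0 ≤ w i) (hw : Summable w) {β C h₀ : ℝ} (hβ : 0 < β) (hh₀ : 0 < h₀)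
    (hV : ∀ h : ℝ, 0 < h → h < h₀ → Vf w γ h ≤ C * h ^ β) :
    ∃ C' : ℝ, ∀ δ : ℝ, 0 < δ → δ ≤ 1 → U w γ δ ≤ C' * δ ^ β := by
  have hW : 0 ≤ ∑' i, w i := tsum_nonneg hw0
  set δ₀ := min h₀ (1 / 2) with hδ₀
  have hδ₀p : 0 < δ₀ := lt_min hh₀ (by norm_num)
  have hδβ : 0 < δ₀ ^ β := Real.rpow_pos_of_pos hδ₀p β
  refine ⟨max C 0 + 2 * (∑' i, w i) / δ₀ ^ β, fun δ h0 h1 => ?_⟩
  have hδp : 0 < δ ^ β := Real.rpow_pos_of_pos h0 β
  rcases lt_or_ge δ δ₀ with h3 | h3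
  · -- h = 1 - exp (-δ)
    set h := 1 - Real.exp (-δ) with hh
    have e0 : 1 - h = Real.exp (-δ) := by rw [hh]; ring
    have e1 : dl h = δ := by
      unfold dl
      rw [e0, Real.log_exp, neg_neg]
    have e2 : 0 < h := by
      have : Real.exp (-δ) < 1 := Real.exp_lt_one_iff.2 (by linarith)
      linarith
    have e3 : h ≤ δ := by
      have := Real.add_one_le_exp (-δ)
      linarith
    have e4 := hV h e2 (lt_of_le_of_lt e3 (h3.trans_le (min_le_left _ _)))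
    have e5 : 1 / 2 ≤ √(1 - h) := by
      apply Real.le_sqrt_of_sq_le
      have : h ≤ 1 / 2 := e3.trans (h3.le.trans (min_le_right _ _))
      norm_num
      linarith
    unfold Vf at e4
    rw [e1] at e4
    have e6 : U w γ δ ≤ 2 * √(1 - h) * U w γ δ := by
      have := U_nonneg hw0 (γ := γ) δ
      nlinarith
    have e7 : 0 ≤ (1 - √(1 - h)) ^ 2 * (∑' i, w i) := by positivity
    have e8 : C * h ^ β ≤ max C 0 * δ ^ β := by
      refine mul_le_mul (le_max_left _ _) (Real.rpow_le_rpow e2.le e3 hβ.le) (by positivity) (le_max_right _ _)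
    have e9 : 0 ≤ 2 * (∑' i, w i) / δ₀ ^ β * δ ^ β := by positivity
    nlinarith
  · have e1 := U_le_two hw0 hw (γ := γ) δ
    have e2 : δ₀ ^ β ≤ δ ^ β := Real.rpow_le_rpow hδ₀p.le h3 hβ.le
    have e3 : 2 * (∑' i, w i) ≤ 2 * (∑' i, w i) / δ₀ ^ β * δ ^ β := by
      rw [div_mul_eq_mul_div, le_div_iff₀ hδβ]
      exact mul_le_mul_of_nonneg_left e2 (by positivity)
    have e4 : 0 ≤ max C 0 * δ ^ β := mul_nonneg (le_max_right _ _) hδp.le
    nlinarith

theorem sqrt_tendsto : Tendsto (fun h : ℝ => √(1 - h)) (𝓝[>] 0) (𝓝 1) := by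
  have h1 : Tendsto (fun h : ℝ => √(1 - h)) (𝓝 0) (𝓝 (√(1 - 0))) :=
    (Real.continuous_sqrt.comp (by fun_prop : Continuous fun h : ℝ => 1 - h)).tendsto 0
  rw [sub_zero, Real.sqrt_one] at h1
  exact h1.mono_left nhdsWithin_le_nhds

theorem hlt : ∀ᶠ h : ℝ in 𝓝[>] 0, h < 1 := nhdsWithin_le_nhds (eventually_lt_nhds one_pos)

theorem hpos : ∀ᶠ h : ℝ in 𝓝[>] 0, 0 < h := eventually_mem_nhdsWithin

theorem smooth_tendsto (W : ℝ) : Tendsto (fun h : ℝ => (1 - √(1 - h)) ^ 2 * W / h) (𝓝[>] 0) (𝓝 0) := by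
  have h1 : Tendsto (fun h : ℝ => h * |W|) (𝓝[>] 0) (𝓝 0) := by
    have : Tendsto (fun h : ℝ => h * |W|) (𝓝 0) (𝓝 (0 * |W|)) := tendsto_id.mul_const _
    rw [zero_mul] at this
    exact this.mono_left nhdsWithin_le_nhds
  refine squeeze_zero_norm' ?_ h1
  filter_upwards [hpos, hlt] with h h0 h1
  obtain ⟨s1, s2⟩ := sqrt_facts h0 h1
  rw [norm_div, norm_mul, norm_pow, Real.norm_eq_abs, Real.norm_eq_abs, Real.norm_eq_abs, abs_of_nonneg s1,
    abs_of_pos h0, div_le_iff₀ h0]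
  have := pow_le_pow_left₀ s1 s2 2
  have h5 := mul_le_mul_of_nonneg_right this (abs_nonneg W)
  nlinarith

theorem dl_tendsto : Tendsto dl (𝓝[>] 0) (𝓝[>] 0) := by
  refine tendsto_nhdsWithin_iff.2 ⟨?_, ?_⟩
  · have h1 : ContinuousAt dl 0 := by
      unfold dl
      refine (ContinuousAt.log (by fun_prop) (by norm_num)).neg
    have h2 : dl 0 = 0 := by simp [dl]
    have h3 : Tendsto dl (𝓝 0) (𝓝 (dl 0)) := h1
    rw [h2] at h3
    exact h3.mono_left nhdsWithin_le_nhds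
  · filter_upwards [hpos, hlt] with h h0 h1
    exact dl_pos h0 h1

theorem ex_tendsto : Tendsto (fun δ : ℝ => 1 - Real.exp (-δ)) (𝓝[>] 0) (𝓝[>] 0) := by
  refine tendsto_nhdsWithin_iff.2 ⟨?_, ?_⟩
  · have h3 : Tendsto (fun δ : ℝ => 1 - Real.exp (-δ)) (𝓝 0) (𝓝 (1 - Real.exp (-0))) :=
      (by fun_prop : Continuous fun δ : ℝ => 1 - Real.exp (-δ)).tendsto 0
    rw [neg_zero, Real.exp_zero, sub_self] at h3
    exact h3.mono_left nhdsWithin_le_nhds
  · filter_upwards [hpos] with δ h0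
    have : Real.exp (-δ) < 1 := Real.exp_lt_one_iff.2 (by linarith)
    simp only [mem_Ioi]
    linarith

theorem dl_ex (δ : ℝ) : dl (1 - Real.exp (-δ)) = δ := by
  unfold dl
  rw [sub_sub_cancel, Real.log_exp, neg_neg]

theorem dl_div : Tendsto (fun h : ℝ => dl h / h) (𝓝[>] 0) (𝓝 1) := by
  have h4 : HasDerivAt dl 1 0 := by
    have h5 : HasDerivAt (fun x : ℝ => 1 - x) (-1) 0 := (hasDerivAt_id (0 : ℝ)).const_sub 1
    have h6 := (h5.log (by norm_num)).neg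
    refine h6.congr_deriv ?_
    norm_num
  have h7 := h4.tendsto_slope_zero
  simp only [zero_add, smul_eq_mul] at h7
  have h8 : dl 0 = 0 := by simp [dl]
  rw [h8] at h7
  refine (h7.mono_left (nhdsWithin_mono _ fun x hx => ne_of_gt hx)).congr fun x => ?_
  rw [sub_zero]
  ring

theorem lim_inv {A : ℝ} : Tendsto (fun T : ℝ => T * U w γ (1 / T)) atTop (𝓝 A) ↔
    Tendsto (fun δ : ℝ => U w γ δ / δ) (𝓝[>] 0) (𝓝 A) := by
  constructor
  · intro h
    refine (h.comp tendsto_inv_nhdsGT_zero).congr' ?_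
    filter_upwards [hpos] with δ hδ
    simp only [Function.comp_apply]
    rw [one_div, inv_inv]
    ring
  · intro h
    have h1 : Tendsto (fun T : ℝ => T⁻¹) atTop (𝓝[>] 0) := tendsto_inv_atTop_nhdsGT_zero
    refine (h.comp h1).congr fun T => ?_
    simp only [Function.comp_apply]
    rw [one_div, div_inv_eq_mul]
    ring

theorem Vf_lim {A : ℝ} : Tendsto (fun T : ℝ => T * U w γ (1 / T)) atTop (𝓝 A) ↔
    Tendsto (fun h : ℝ => Vf w γ h / h) (𝓝[>] 0) (𝓝 (2 * A)) := by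
  rw [lim_inv]
  constructor
  · intro h
    have h1 := (smooth_tendsto (∑' i, w i)).add
      (((sqrt_tendsto.const_mul 2).mul (h.comp dl_tendsto)).mul dl_div)
    rw [zero_add, mul_one, mul_one] at h1
    refine h1.congr' ?_
    filter_upwards [hpos, hlt] with x h0 h1
    have hd := dl_pos h0 h1
    unfold Vf
    simp only [Function.comp_apply]
    field_simp
  · intro h
    -- first `U (dl h) / h`
    have h1 : Tendsto (fun h : ℝ => U w γ (dl h) / dl h) (𝓝[>] 0) (𝓝 A) := by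
      have h2 := (h.sub (smooth_tendsto (∑' i, w i))).div
        ((sqrt_tendsto.const_mul 2).mul dl_div) (by norm_num)
      have e : (2 * A - 0) / (2 * 1 * 1) = A := by ring
      rw [e] at h2
      refine h2.congr' ?_
      filter_upwards [hpos, hlt] with x h0 h1
      have hd := dl_pos h0 h1
      have hs : 0 < √(1 - x) := Real.sqrt_pos.2 (by linarith)
      simp only [Pi.div_apply]
      unfold Vf
      field_simp
      ring
    refine (h1.comp ex_tendsto).congr fun δ => ?_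
    simp only [Function.comp_apply]
    rw [dl_ex]

theorem Vf_zero [Countable ι] (hw0 : ∀ i, 0 ≤ w i) (hw : Summable w) :
    Tendsto (Vf w γ) (𝓝[>] 0) (𝓝 0) := by
  have h1 : Tendsto (U w γ) (𝓝 0) (𝓝 (U w γ 0)) := (U_meas hw0 hw).tendsto 0
  have h2 : U w γ 0 = 0 := by simp [U]
  rw [h2] at h1
  have h3 : Tendsto (fun h : ℝ => U w γ (dl h)) (𝓝[>] 0) (𝓝 0) :=
    (h1.mono_left nhdsWithin_le_nhds).comp dl_tendsto
  have h4 := (((sqrt_tendsto.const_sub 1).pow 2).mul_const (∑' i, w i)).add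
    ((sqrt_tendsto.const_mul 2).mul h3)
  have e : (1 - 1 : ℝ) ^ 2 * (∑' i, w i) + 2 * 1 * 0 = 0 := by ring
  rw [e] at h4
  exact h4

end Pool.Agent.E8helper14.JM
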