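import Pool.Agent.E8helper14.JM.Abel2

/-!
# From `U δ ~ A δ` to `G T ~ (2 / π) A T`
-/

set_option autoImplicit false

open Filter Topology MeasureTheory Set
open scoped FourierTransform SchwartzMap

namespace Pool.Agent.E8helper14.JM

/-- Representation of `x ^ 2 b x`, `b` an even smooth function of compact support. -/
theorem rep {b : ℝ → ℝ} (hb : ContDiff ℝ ((⊤ : ℕ∞) : WithTop ℕ∞) b) (hc : HasCompactSupport b)
    (he : ∀ x, b (-x) = b x) :
    ∃ k : ℝ → ℝ, Continuous k ∧ Integrable k ∧ Integrable (fun s => |s| * k s) ∧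
      ∀ x : ℝ, x ^ 2 * b x = ∫ s : ℝ, k s * (1 - Real.cos (2 * Real.pi * s * x)) := by
  set f₀ : ℝ → ℂ := fun x => ((x ^ 2 * b x : ℝ) : ℂ) with hf₀
  have h1 : ContDiff ℝ ((⊤ : ℕ∞) : WithTop ℕ∞) f₀ :=
    Complex.ofRealCLM.contDiff.comp ((contDiff_id.pow 2).mul hb)
  have h2 : HasCompactSupport f₀ := by
    refine hc.mono fun x hx => ?_
    simp only [hf₀, Function.mem_support, ne_eq, Complex.ofReal_eq_zero] at hx ⊢
    intro h
    exact hx (by rw [h, mul_zero])
  set f : 𝓢(ℝ, ℂ) := h2.toSchwartzMap h1 with hf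
  have hfx : ∀ x, f x = f₀ x := fun x => rfl
  set F : 𝓢(ℝ, ℂ) := 𝓕 f with hF
  have hinv : ∀ x : ℝ, f x = ∫ s : ℝ, Complex.exp (2 * Real.pi * (s * x : ℝ) * Complex.I) * F s := by
    intro x
    have h3 : 𝓕⁻ F = f := FourierPair.fourierInv_fourier_eq f
    have h4 : (𝓕⁻ F : 𝓢(ℝ, ℂ)) x = 𝓕⁻ (F : ℝ → ℂ) x := by rw [SchwartzMap.fourierInv_coe]
    rw [← h3, h4, Real.fourierInv_eq']
    refine integral_congr_ae (Eventually.of_forall fun s => ?_)
    simp only [smul_eq_mul]
    congr 2
    simp
    ring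
  have hFi : Integrable (F : ℝ → ℂ) := F.integrable
  have hFi1 : Integrable fun s : ℝ => ‖s‖ * ‖F s‖ := by
    have := F.integrable_pow_mul volume 1
    simpa using this
  have hei : ∀ x : ℝ, Integrable fun s : ℝ => Complex.exp (2 * Real.pi * (s * x : ℝ) * Complex.I) * F s := by
    intro x
    refine hFi.bdd_mul (c := 1) ?_ (Eventually.of_forall fun s => ?_)
    · exact (by fun_prop : Continuous fun s : ℝ => Complex.exp (2 * Real.pi * (s * x : ℝ) * Complex.I)).aestronglyMeasurable
    · have e : 2 * Real.pi * ((s * x : ℝ) : ℂ) * Complex.I = ((2 * Real.pi * (s * x) : ℝ) : ℂ) * Complex.I := by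
        push_cast
        ring
      rw [e, Complex.norm_exp_ofReal_mul_I]
  have hcos : ∀ x : ℝ, f x = ∫ s : ℝ, ((Real.cos (2 * Real.pi * s * x) : ℝ) : ℂ) * F s := by
    intro x
    have h3 : f (-x) = f x := by
      rw [hfx, hfx]
      simp only [hf₀]
      rw [he]
      congr 2
      ring
    have h4 : f x = (f x + f (-x)) / 2 := by rw [h3]; ring
    rw [h4, hinv x, hinv (-x), ← integral_add (hei x) (hei (-x)), ← integral_div]
    refine integral_congr_ae (Eventually.of_forall fun s => ?_)
    simp only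
    rw [Complex.ofReal_cos, Complex.cos]
    have e1 : 2 * Real.pi * ((s * x : ℝ) : ℂ) * Complex.I = ((2 * Real.pi * s * x : ℝ) : ℂ) * Complex.I := by
      push_cast
      ring
    have e2 : 2 * Real.pi * ((s * (-x) : ℝ) : ℂ) * Complex.I = -((2 * Real.pi * s * x : ℝ) : ℂ) * Complex.I := by
      push_cast
      ring
    rw [e1, e2]
    ring
  have hci : ∀ x : ℝ, Integrable fun s : ℝ => ((Real.cos (2 * Real.pi * s * x) : ℝ) : ℂ) * F s := by
    intro x
    refine hFi.bdd_mul (c := 1) ?_ (Eventually.of_forall fun s => ?_)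
    · exact (by fun_prop : Continuous fun s : ℝ => ((Real.cos (2 * Real.pi * s * x) : ℝ) : ℂ)).aestronglyMeasurable
    · rw [Complex.norm_real, Real.norm_eq_abs]
      exact Real.abs_cos_le_one _
  refine ⟨fun s => -(F s).re, (Complex.continuous_re.comp F.continuous).neg, hFi.re.neg, ?_, fun x => ?_⟩
  · refine hFi1.mono ?_ (Eventually.of_forall fun s => ?_)
    · exact (continuous_abs.mul (Complex.continuous_re.comp F.continuous).neg).aestronglyMeasurable
    · rw [norm_mul, norm_neg, norm_mul, norm_norm, norm_norm, Real.norm_eq_abs, Real.norm_eq_abs, abs_abs]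
      exact mul_le_mul_of_nonneg_left (Complex.abs_re_le_norm _) (abs_nonneg _)
  · have h3 : f x - f 0 = ∫ s : ℝ, ((Real.cos (2 * Real.pi * s * x) - 1 : ℝ) : ℂ) * F s := by
      have h4 : f 0 = ∫ s : ℝ, F s := by
        rw [hcos 0]
        refine integral_congr_ae (Eventually.of_forall fun s => ?_)
        simp
      rw [hcos x, h4, ← integral_sub (hci x) hFi]
      refine integral_congr_ae (Eventually.of_forall fun s => ?_)
      simp only
      push_cast
      ring
    have h5 : f 0 = 0 := by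
      rw [hfx]
      simp [hf₀]
    rw [h5, sub_zero, hfx] at h3
    have hi : Integrable fun s : ℝ => ((Real.cos (2 * Real.pi * s * x) - 1 : ℝ) : ℂ) * F s := by
      refine ((hci x).sub hFi).congr (Eventually.of_forall fun s => ?_)
      simp only [Pi.sub_apply]
      push_cast
      ring
    have h6 := congrArg Complex.re h3
    rw [show (∫ s : ℝ, ((Real.cos (2 * Real.pi * s * x) - 1 : ℝ) : ℂ) * F s).re =
      RCLike.re (∫ s : ℝ, ((Real.cos (2 * Real.pi * s * x) - 1 : ℝ) : ℂ) * F s) from rfl,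
      ← integral_re hi] at h6
    simp only [hf₀, Complex.ofReal_re] at h6
    rw [h6]
    refine integral_congr_ae (Eventually.of_forall fun s => ?_)
    simp only [RCLike.re_to_complex, Complex.re_ofReal_mul]
    ring

variable {ι : Type} {w γ : ι → ℝ}

theorem U_bdd (hw0 : ∀ i, 0 ≤ w i) (hw : Summable w) {A : ℝ}
    (hU : Tendsto (fun T : ℝ => T * U w γ (1 / T)) atTop (𝓝 A)) :
    ∃ C : ℝ, 0 ≤ C ∧ ∀ δ : ℝ, U w γ δ ≤ C * |δ| := by
  obtain ⟨T₀, hT₀⟩ := eventually_atTop.1 (hU.eventually (eventually_le_nhds (show A < A + 1 by linarith)))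
  have hW : 0 ≤ ∑' i, w i := tsum_nonneg hw0
  set T₁ := max T₀ 1 with hT₁
  have hT₁1 : 1 ≤ T₁ := le_max_right _ _
  refine ⟨max (A + 1) (2 * (∑' i, w i) * T₁), ?_, fun δ => ?_⟩
  · exact le_trans (by positivity) (le_max_right _ _)
  have key : ∀ δ : ℝ, 0 < δ → U w γ δ ≤ max (A + 1) (2 * (∑' i, w i) * T₁) * δ := by
    intro δ hδ
    rcases le_total T₁ (1 / δ) with h | h
    · have h1 := hT₀ (1 / δ) ((le_max_left _ _).trans h)
      rw [one_div_one_div, one_div, inv_mul_le_iff₀ hδ] at h1
      calc U w γ δ ≤ (A + 1) * δ := by linarith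
        _ ≤ _ := mul_le_mul_of_nonneg_right (le_max_left _ _) hδ.le
    · have h1 := U_le_two hw0 hw (γ := γ) δ
      have h2 : 1 ≤ T₁ * δ := by
        rwa [div_le_iff₀ hδ] at h
      calc U w γ δ ≤ (2 * (∑' i, w i)) * 1 := by linarith
        _ ≤ (2 * (∑' i, w i)) * (T₁ * δ) := mul_le_mul_of_nonneg_left h2 (by positivity)
        _ = (2 * (∑' i, w i) * T₁) * δ := by ring
        _ ≤ _ := mul_le_mul_of_nonneg_right (le_max_right _ _) hδ.le
  rcases lt_trichotomy δ 0 with h | h | h
  · have h1 := key (-δ) (by linarith)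
    rw [U_neg] at h1
    rwa [abs_of_neg h]
  · subst h
    simp [U]
  · rw [abs_of_pos h]
    exact key δ h

theorem U_meas [Countable ι] (hw0 : ∀ i, 0 ≤ w i) (hw : Summable w) : Continuous (U w γ) := by
  unfold U
  refine continuous_tsum (fun i => by fun_prop) (hw.mul_left 2) fun i δ => ?_
  rw [Real.norm_of_nonneg (term_nonneg hw0 δ i)]
  exact term_le hw0 δ i

/-- the sum over the sequence as an integral -/
theorem sum_rep [Countable ι] (hw0 : ∀ i, 0 ≤ w i) (hw : Summable w) {k f : ℝ → ℝ}
    (hki : Integrable k) (hf : ∀ x : ℝ, f x = ∫ s : ℝ, k s * (1 - Real.cos (2 * Real.pi * s * x)))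
    (T : ℝ) : ∑' i, w i * f (γ i / T) = ∫ s : ℝ, k s * U w γ (2 * Real.pi * s / T) := by
  have hF : ∀ i, Integrable fun s : ℝ => k s * (w i * (1 - Real.cos (2 * Real.pi * s / T * γ i))) := by
    intro i
    refine hki.mul_bdd (c := 2 * w i) ?_ (Eventually.of_forall fun s => ?_)
    · exact (by fun_prop : Continuous fun s : ℝ =>
        w i * (1 - Real.cos (2 * Real.pi * s / T * γ i))).aestronglyMeasurable
    · rw [Real.norm_of_nonneg (term_nonneg hw0 _ i)]
      exact term_le hw0 _ i
  have hs : Summable fun i => ∫ s : ℝ, ‖k s * (w i * (1 - Real.cos (2 * Real.pi * s / T * γ i)))‖ := by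
    refine Summable.of_nonneg_of_le (fun i => integral_nonneg fun s => norm_nonneg _) (fun i => ?_)
      (hw.mul_left ((∫ s : ℝ, ‖k s‖) * 2))
    have h1 : ∫ s : ℝ, ‖k s * (w i * (1 - Real.cos (2 * Real.pi * s / T * γ i)))‖ ≤
        ∫ s : ℝ, ‖k s‖ * (2 * w i) := by
      refine integral_mono (hF i).norm (hki.norm.mul_const _) fun s => ?_
      simp only
      rw [norm_mul, Real.norm_of_nonneg (term_nonneg hw0 _ i)]
      exact mul_le_mul_of_nonneg_left (term_le hw0 _ i) (norm_nonneg _)
    refine h1.trans (le_of_eq ?_)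
    rw [integral_mul_const]
    ring
  have h1 := hasSum_integral_of_summable_integral_norm hF hs
  have e1 : (fun s : ℝ => k s * U w γ (2 * Real.pi * s / T)) =
      fun s => ∑' i, k s * (w i * (1 - Real.cos (2 * Real.pi * s / T * γ i))) := by
    funext s
    rw [tsum_mul_left]
    rfl
  rw [e1, ← h1.tsum_eq]
  refine tsum_congr fun i => ?_
  rw [hf, ← integral_const_mul]
  refine integral_congr_ae (Eventually.of_forall fun s => ?_)
  simp only
  have e2 : 2 * Real.pi * s * (γ i / T) = 2 * Real.pi * s / T * γ i := by ring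
  rw [e2]
  ring

theorem lim_rep [Countable ι] (hw0 : ∀ i, 0 ≤ w i) (hw : Summable w) {A : ℝ}
    (hU : Tendsto (fun T : ℝ => T * U w γ (1 / T)) atTop (𝓝 A)) {k f : ℝ → ℝ} (hk : Continuous k)
    (hki : Integrable k) (hki1 : Integrable fun s => |s| * k s)
    (hf : ∀ x : ℝ, f x = ∫ s : ℝ, k s * (1 - Real.cos (2 * Real.pi * s * x))) :
    Tendsto (fun T : ℝ => T * ∑' i, w i * f (γ i / T)) atTop
      (𝓝 (A * (2 * Real.pi * ∫ s : ℝ, |s| * k s))) := by
  obtain ⟨C, hC0, hC⟩ := U_bdd hw0 hw hU
  have hcont := U_meas hw0 hw (γ := γ)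
  have h1 : Tendsto (fun T : ℝ => ∫ s : ℝ, k s * (T * U w γ (2 * Real.pi * s / T))) atTop
      (𝓝 (∫ s : ℝ, k s * (A * (2 * Real.pi * |s|)))) := by
    refine tendsto_integral_filter_of_dominated_convergence (fun s => C * (2 * Real.pi) * ‖|s| * k s‖)
      ?_ ?_ (hki1.norm.const_mul _) ?_
    · refine Eventually.of_forall fun T => ?_
      exact (hk.mul (continuous_const.mul (hcont.comp (by fun_prop)))).aestronglyMeasurable
    · filter_upwards [eventually_gt_atTop 0] with T hT
      refine Eventually.of_forall fun s => ?_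
      have h2 := hC (2 * Real.pi * s / T)
      have h3 := U_nonneg hw0 (γ := γ) (2 * Real.pi * s / T)
      have h4 : |2 * Real.pi * s / T| = 2 * Real.pi * |s| / T := by
        rw [abs_div, abs_mul, abs_of_pos Real.two_pi_pos, abs_of_pos hT]
      rw [h4] at h2
      rw [norm_mul, Real.norm_of_nonneg (mul_nonneg hT.le h3), norm_mul, Real.norm_eq_abs |s|, abs_abs]
      calc ‖k s‖ * (T * U w γ (2 * Real.pi * s / T)) ≤ ‖k s‖ * (T * (C * (2 * Real.pi * |s| / T))) :=
            mul_le_mul_of_nonneg_left (mul_le_mul_of_nonneg_left h2 hT.le) (norm_nonneg _)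
        _ = _ := by field_simp
    · refine Eventually.of_forall fun s => ?_
      refine Tendsto.const_mul _ ?_
      by_cases hs : s = 0
      · subst hs
        simp [U]
      · have hs0 : 0 < 2 * Real.pi * |s| := mul_pos Real.two_pi_pos (abs_pos.2 hs)
        have h2 : Tendsto (fun T : ℝ => T / (2 * Real.pi * |s|)) atTop atTop :=
          tendsto_id.atTop_div_const hs0
        refine ((hU.comp h2).mul_const (2 * Real.pi * |s|)).congr' ?_
        filter_upwards [eventually_gt_atTop 0] with T hT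
        simp only [Function.comp_apply]
        have h3 : U w γ (1 / (T / (2 * Real.pi * |s|))) = U w γ (2 * Real.pi * s / T) := by
          rw [one_div_div]
          rcases abs_cases s with ⟨h, _⟩ | ⟨h, _⟩
          · rw [h]
          · rw [h, ← U_neg (2 * Real.pi * s / T)]
            congr 1
            ring
        rw [h3]
        field_simp
  have e1 : ∫ s : ℝ, k s * (A * (2 * Real.pi * |s|)) = A * (2 * Real.pi * ∫ s : ℝ, |s| * k s) := by
    rw [← integral_const_mul, ← integral_const_mul]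
    refine integral_congr_ae (Eventually.of_forall fun s => ?_)
    simp only
    ring
  rw [e1] at h1
  refine h1.congr fun T => ?_
  rw [sum_rep hw0 hw hki hf T, ← integral_const_mul]
  refine integral_congr_ae (Eventually.of_forall fun s => ?_)
  simp only
  ring

/-- the constant -/
theorem int_rep {b k : ℝ → ℝ} (hk : Continuous k) (hki1 : Integrable fun s => |s| * k s)
    (hf : ∀ x : ℝ, x ^ 2 * b x = ∫ s : ℝ, k s * (1 - Real.cos (2 * Real.pi * s * x))) :
    ∫ x : ℝ, b x = 2 * kap * (2 * Real.pi * ∫ s : ℝ, |s| * k s) := by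
  -- the function on the plane
  have hin : ∀ s : ℝ, ∫ x : ℝ, k s * ((2 * Real.pi * s) ^ 2 * ph (2 * Real.pi * s * x)) =
      (2 * kap * (2 * Real.pi)) * (|s| * k s) := by
    intro s
    rw [integral_const_mul, integral_const_mul, Measure.integral_comp_mul_left ph (2 * Real.pi * s), kap_two,
      smul_eq_mul]
    by_cases hs : s = 0
    · subst hs
      simp
    · have h1 : |(2 * Real.pi * s)⁻¹| = (2 * Real.pi * |s|)⁻¹ := by
        rw [abs_inv, abs_mul, abs_of_pos Real.two_pi_pos]
      have h2 : (2 * Real.pi * s) ^ 2 = (2 * Real.pi * |s|) ^ 2 := by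
        rw [mul_pow, mul_pow (2 * Real.pi) |s|, sq_abs]
      have h3 : 0 < 2 * Real.pi * |s| := mul_pos Real.two_pi_pos (abs_pos.2 hs)
      rw [h1, h2]
      field_simp
  have hinn : ∀ s : ℝ, Integrable fun x : ℝ => k s * ((2 * Real.pi * s) ^ 2 * ph (2 * Real.pi * s * x)) := by
    intro s
    by_cases hs : s = 0
    · subst hs
      simp
    · have h0 : 2 * Real.pi * s ≠ 0 := mul_ne_zero Real.two_pi_pos.ne' hs
      exact ((ph_integrable.comp_mul_left' h0).const_mul _).const_mul _
  have hprod : Integrable (Function.uncurry fun s x : ℝ =>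
      k s * ((2 * Real.pi * s) ^ 2 * ph (2 * Real.pi * s * x))) (volume.prod volume) := by
    rw [integrable_prod_iff]
    · refine ⟨Eventually.of_forall fun s => hinn s, ?_⟩
      have e1 : (fun s : ℝ => ∫ x : ℝ, ‖Function.uncurry (fun s x : ℝ =>
          k s * ((2 * Real.pi * s) ^ 2 * ph (2 * Real.pi * s * x))) (s, x)‖) =
          fun s => (2 * kap * (2 * Real.pi)) * ‖|s| * k s‖ := by
        funext s
        have e2 : (fun x : ℝ => ‖Function.uncurry (fun s x : ℝ =>
          k s * ((2 * Real.pi * s) ^ 2 * ph (2 * Real.pi * s * x))) (s, x)‖) =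
          fun x : ℝ => |k s| * ((2 * Real.pi * s) ^ 2 * ph (2 * Real.pi * s * x)) := by
          funext x
          simp only [Function.uncurry_apply_pair]
          rw [norm_mul, Real.norm_eq_abs, Real.norm_of_nonneg (mul_nonneg (sq_nonneg _) (ph_nonneg _))]
        rw [e2, integral_const_mul]
        have h3 := hin s
        rw [integral_const_mul] at h3
        rw [norm_mul, Real.norm_eq_abs, Real.norm_eq_abs, abs_abs]
        by_cases hks : k s = 0
        · rw [hks]
          simp
        · have h4 : ∫ x : ℝ, (2 * Real.pi * s) ^ 2 * ph (2 * Real.pi * s * x) =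
              2 * kap * (2 * Real.pi) * |s| := by
            have h5 : k s * (∫ x : ℝ, (2 * Real.pi * s) ^ 2 * ph (2 * Real.pi * s * x)) =
                k s * (2 * kap * (2 * Real.pi) * |s|) := by rw [h3]; ring
            exact mul_left_cancel₀ hks h5
          rw [h4]
          ring
      rw [e1]
      exact hki1.norm.const_mul _
    · refine Continuous.aestronglyMeasurable ?_
      have := ph_cont
      exact (hk.comp continuous_fst).mul ((by fun_prop : Continuous fun p : ℝ × ℝ =>
        (2 * Real.pi * p.1) ^ 2).mul (ph_cont.comp (by fun_prop)))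
  have h1 : ∫ x : ℝ, b x = ∫ x : ℝ, ∫ s : ℝ, k s * ((2 * Real.pi * s) ^ 2 * ph (2 * Real.pi * s * x)) := by
    refine integral_congr_ae ?_
    have hne : ∀ᵐ s : ℝ, s ≠ 0 := by
      rw [ae_iff]
      simp
    filter_upwards [hne] with x hx
    have h2 := hf x
    have h3 : ∫ s : ℝ, k s * (1 - Real.cos (2 * Real.pi * s * x)) =
        x ^ 2 * ∫ s : ℝ, k s * ((2 * Real.pi * s) ^ 2 * ph (2 * Real.pi * s * x)) := by
      rw [← integral_const_mul]
      refine integral_congr_ae (Eventually.of_forall fun s => ?_)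
      simp only
      rw [← sq_ph (2 * Real.pi * s * x)]
      ring
    rw [h3] at h2
    exact mul_left_cancel₀ (pow_ne_zero 2 hx) h2
  rw [h1, ← integral_integral_swap hprod, integral_congr_ae (Eventually.of_forall hin), integral_const_mul]
  ring

end Pool.Agent.E8helper14.JM
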