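import Pool.Agent.E8helper14.JM.Taub

/-!
# From `U δ ~ A δ` to `G T ~ (2 / π) A T`: the end
-/

set_option autoImplicit false

open Filter Topology MeasureTheory Set
open scoped FourierTransform SchwartzMap

namespace Pool.Agent.E8helper14.JM

variable {ι : Type} {w γ : ι → ℝ}

theorem lim_bump [Countable ι] (hw0 : ∀ i, 0 ≤ w i) (hw : Summable w) {A : ℝ}
    (hU : Tendsto (fun T : ℝ => T * U w γ (1 / T)) atTop (𝓝 A)) (b : ContDiffBump (0 : ℝ)) :
    Tendsto (fun T : ℝ => T * ∑' i, w i * ((γ i / T) ^ 2 * b (γ i / T))) atTop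
      (𝓝 (A * ((∫ x, b x) / (2 * kap)))) := by
  obtain ⟨k, hk, hki, hki1, hf⟩ := rep (b := b) b.contDiff b.hasCompactSupport b.neg
  have h1 := lim_rep hw0 hw hU hk hki hki1 hf
  have h2 := int_rep hk hki1 hf
  have h3 : 0 < kap := by rw [kap_eq]; positivity
  rw [h2]
  have e : 2 * kap * (2 * Real.pi * ∫ s : ℝ, |s| * k s) / (2 * kap) = 2 * Real.pi * ∫ s : ℝ, |s| * k s := by
    field_simp
  rw [e]
  exact h1

theorem bump_term {T : ℝ} (hT : 0 < T) (b : ℝ → ℝ) (i : ι) :
    T * (w i * ((γ i / T) ^ 2 * b (γ i / T))) = γ i ^ 2 * w i * b (γ i / T) / T := by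
  field_simp

theorem summable_bump (hw0 : ∀ i, 0 ≤ w i) (hw : Summable w) (b : ContDiffBump (0 : ℝ)) (T : ℝ) :
    Summable fun i => T * (w i * ((γ i / T) ^ 2 * b (γ i / T))) := by
  refine Summable.mul_left _ ?_
  refine Summable.of_nonneg_of_le (fun i => mul_nonneg (hw0 i) (mul_nonneg (sq_nonneg _) b.nonneg))
    (fun i => ?_) (hw.mul_right (b.rOut ^ 2))
  refine mul_le_mul_of_nonneg_left ?_ (hw0 i)
  by_cases h : γ i / T ∈ Metric.ball (0 : ℝ) b.rOut
  · rw [Metric.mem_ball, dist_zero_right, Real.norm_eq_abs] at h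
    have h1 : (γ i / T) ^ 2 ≤ b.rOut ^ 2 := by
      rw [← sq_abs]
      exact pow_le_pow_left₀ (abs_nonneg _) h.le 2
    calc (γ i / T) ^ 2 * b (γ i / T) ≤ b.rOut ^ 2 * 1 :=
          mul_le_mul h1 b.le_one b.nonneg (sq_nonneg _)
      _ = _ := mul_one _
  · rw [← b.support_eq, Function.notMem_support] at h
    rw [h, mul_zero]
    positivity

theorem G_le_bump (hw0 : ∀ i, 0 ≤ w i) (hw : Summable w) (b : ContDiffBump (0 : ℝ)) (hb : 1 ≤ b.rIn)
    {T : ℝ} (hT : 0 < T) : G w γ T / T ≤ T * ∑' i, w i * ((γ i / T) ^ 2 * b (γ i / T)) := by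
  rw [← tsum_mul_left]
  unfold G
  rw [← tsum_div_const]
  refine Summable.tsum_le_tsum (fun i => ?_) ((summable_G hw0 hw T).div_const _)
    (summable_bump hw0 hw b T)
  rw [bump_term hT]
  by_cases h : |γ i| ≤ T
  · rw [if_pos h]
    have h1 : b (γ i / T) = 1 := by
      refine b.one_of_mem_closedBall ?_
      rw [Metric.mem_closedBall, dist_zero_right, Real.norm_eq_abs, abs_div, abs_of_pos hT]
      exact ((div_le_one hT).2 h).trans hb
    rw [h1, mul_one]
  · rw [if_neg h, zero_div]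
    exact div_nonneg (mul_nonneg (mul_nonneg (sq_nonneg _) (hw0 i)) b.nonneg) hT.le

theorem bump_le_G (hw0 : ∀ i, 0 ≤ w i) (hw : Summable w) (b : ContDiffBump (0 : ℝ)) (hb : b.rOut ≤ 1)
    {T : ℝ} (hT : 0 < T) : T * ∑' i, w i * ((γ i / T) ^ 2 * b (γ i / T)) ≤ G w γ T / T := by
  rw [← tsum_mul_left]
  unfold G
  rw [← tsum_div_const]
  refine Summable.tsum_le_tsum (fun i => ?_) (summable_bump hw0 hw b T)
    ((summable_G hw0 hw T).div_const _)
  rw [bump_term hT]
  by_cases h : |γ i| ≤ T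
  · rw [if_pos h]
    refine div_le_div_of_nonneg_right ?_ hT.le
    calc γ i ^ 2 * w i * b (γ i / T) ≤ γ i ^ 2 * w i * 1 :=
          mul_le_mul_of_nonneg_left b.le_one (mul_nonneg (sq_nonneg _) (hw0 i))
      _ = _ := mul_one _
  · rw [if_neg h, zero_div]
    have h1 : b (γ i / T) = 0 := by
      rw [← Function.notMem_support, b.support_eq, Metric.mem_ball, dist_zero_right, Real.norm_eq_abs,
        abs_div, abs_of_pos hT, not_lt]
      exact hb.trans ((one_le_div hT).2 (not_le.1 h).le)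
    rw [h1, mul_zero, zero_div]

/-- **The Tauberian theorem.** -/
theorem tauberian [Countable ι] (hw0 : ∀ i, 0 ≤ w i) (hw : Summable w) {A : ℝ}
    (hU : Tendsto (fun T : ℝ => T * U w γ (1 / T)) atTop (𝓝 A)) :
    Tendsto (fun T => G w γ T / T) atTop (𝓝 (A / kap)) := by
  have hA : 0 ≤ A := ge_of_tendsto hU (by
    filter_upwards [eventually_ge_atTop 0] with T hT
    exact mul_nonneg hT (U_nonneg hw0 _))
  have hkap : 0 < kap := by rw [kap_eq]; positivity
  have hAk : 0 ≤ A / kap := div_nonneg hA hkap.le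
  rw [Metric.tendsto_nhds]
  intro ε hε
  -- the width
  obtain ⟨η, hη0, hη1, hη⟩ : ∃ η : ℝ, 0 < η ∧ η < 1 ∧ A / kap * η < ε / 2 := by
    refine ⟨min (1 / 2) (ε / (4 * (A / kap + 1))), lt_min (by norm_num) (by positivity), ?_, ?_⟩
    · exact lt_of_le_of_lt (min_le_left _ _) (by norm_num)
    · have h1 : A / kap * min (1 / 2) (ε / (4 * (A / kap + 1))) ≤ A / kap * (ε / (4 * (A / kap + 1))) :=
        mul_le_mul_of_nonneg_left (min_le_right _ _) hAk
      refine lt_of_le_of_lt h1 ?_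
      rw [← mul_div_assoc, div_lt_div_iff₀ (by positivity) (by norm_num)]
      nlinarith
  let bu : ContDiffBump (0 : ℝ) := ⟨1, 1 + η, one_pos, by linarith⟩
  let bl : ContDiffBump (0 : ℝ) := ⟨1 - η, 1, by linarith, by linarith⟩
  have h1 := lim_bump hw0 hw hU bu
  have h2 := lim_bump hw0 hw hU bl
  have h3 : ∫ x, bu x ≤ 2 * (1 + η) := by
    have := bu.integral_le_measure_closedBall (μ := volume)
    rw [Measure.real, Real.volume_closedBall, ENNReal.toReal_ofReal (by positivity)] at this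
    exact this
  have h4 : 2 * (1 - η) ≤ ∫ x, bl x := by
    have := bl.measure_closedBall_le_integral (μ := volume)
    rw [Measure.real, Real.volume_closedBall, ENNReal.toReal_ofReal (by
      have : 0 < bl.rIn := bl.rIn_pos
      positivity)] at this
    exact this
  have h5 : A * ((∫ x, bu x) / (2 * kap)) ≤ A / kap + A / kap * η := by
    calc A * ((∫ x, bu x) / (2 * kap)) ≤ A * ((2 * (1 + η)) / (2 * kap)) :=
          mul_le_mul_of_nonneg_left (div_le_div_of_nonneg_right h3 (by positivity)) hA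
      _ = _ := by field_simp
  have h6 : A / kap - A / kap * η ≤ A * ((∫ x, bl x) / (2 * kap)) := by
    calc A / kap - A / kap * η = A * ((2 * (1 - η)) / (2 * kap)) := by field_simp
      _ ≤ _ := mul_le_mul_of_nonneg_left (div_le_div_of_nonneg_right h4 (by positivity)) hA
  filter_upwards [(Metric.tendsto_nhds.1 h1) (ε / 2) (by linarith),
    (Metric.tendsto_nhds.1 h2) (ε / 2) (by linarith), eventually_gt_atTop 0] with T h7 h8 hT
  have h9 := G_le_bump hw0 hw (γ := γ) bu le_rfl hT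
  have h10 := bump_le_G hw0 hw (γ := γ) bl le_rfl hT
  rw [Real.dist_eq, abs_lt] at h7 h8 ⊢
  constructor <;> linarith [h7.1, h7.2, h8.1, h8.2]

end Pool.Agent.E8helper14.JM
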