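import Pool.Agent.E8helper14.JM.Seq
import Pool.Agent.W563.WM.Cnt

/-!
# The nontrivial zeros of the zeta function: finiteness, symmetry, and the sums `J` and `G`
-/

set_option autoImplicit false

open Filter Topology MeasureTheory Set

namespace Pool.Agent.E8helper14.JM

/-- the nontrivial zeros of the Riemann zeta function -/
def NT : Set ℂ := {s : ℂ | riemannZeta s = 0 ∧ 0 < s.re ∧ s.re < 1}

/-- the weights -/
noncomputable def wt (ρ : NT) : ℝ := 1 / ‖(ρ : ℂ) * deriv riemannZeta ρ‖ ^ 2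

/-- the ordinates -/
noncomputable def gm (ρ : NT) : ℝ := (ρ : ℂ).im

/-- `∑_{0 < γ ≤ T} 1 / |ζ'(ρ)| ^ 2` -/
noncomputable def J (T : ℝ) : ℝ :=
  ∑' ρ : NT, if 0 < (ρ : ℂ).im ∧ (ρ : ℂ).im ≤ T then 1 / ‖deriv riemannZeta ρ‖ ^ 2 else 0

theorem wt_nonneg (ρ : NT) : 0 ≤ wt ρ := by
  unfold wt
  positivity

theorem zeros_fin (T : ℝ) : {ρ : NT | |gm ρ| ≤ T}.Finite := by
  have hfin := Pool.Agent.W563.WM.zeros_finite (Icc (0 : ℝ) 1 ×ℂ Icc (-T) T)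
    (isCompact_Icc.reProdIm isCompact_Icc)
  refine Set.Finite.of_finite_image (f := fun ρ : NT => (ρ : ℂ)) (hfin.subset ?_)
    (Subtype.val_injective.injOn)
  rintro _ ⟨ρ, hρ, rfl⟩
  obtain ⟨hz, h3, h4⟩ := ρ.2
  have hne : (ρ : ℂ) ≠ 1 := by
    intro h
    rw [h] at h4
    simp at h4
  have h5 : riemannZeta (ρ : ℂ) = ((ρ : ℂ) - 1)⁻¹ * riemannZeta₁ ρ := riemannZeta_eq_inv_sub_mul hne
  have h6 : riemannZeta₁ (ρ : ℂ) = 0 := by
    rw [h5] at hz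
    rcases mul_eq_zero.1 hz with h | h
    · exact absurd (inv_eq_zero.1 h) (sub_ne_zero.2 hne)
    · exact h
  exact ⟨h6, ⟨h3.le, h4.le⟩, abs_le.1 hρ⟩

instance : Countable NT := by
  have h : (⋃ n : ℕ, {ρ : NT | |gm ρ| ≤ n}) = univ := by
    rw [eq_univ_iff_forall]
    intro ρ
    obtain ⟨n, hn⟩ := exists_nat_ge |gm ρ|
    exact mem_iUnion.2 ⟨n, hn⟩
  have h2 : (univ : Set NT).Countable := by
    rw [← h]
    exact countable_iUnion fun n => (zeros_fin n).countable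
  exact countable_univ_iff.1 h2

theorem deriv_conj (s : ℂ) : deriv riemannZeta ((starRingEnd ℂ) s) = (starRingEnd ℂ) (deriv riemannZeta s) := by
  have h := deriv_conj_conj (𝕜 := ℂ) (f := riemannZeta)
  have h1 : (⇑(starRingEnd ℂ) ∘ riemannZeta ∘ ⇑(starRingEnd ℂ)) = riemannZeta := by
    funext z
    simp only [Function.comp_apply]
    rw [riemannZeta_conj, Complex.conj_conj]
  rw [h1] at h
  have h2 := congrFun h ((starRingEnd ℂ) s)
  simp only [Function.comp_apply, Complex.conj_conj] at h2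
  exact h2

/-- conjugation on the zeros -/
noncomputable def cj : NT ≃ NT where
  toFun ρ := ⟨(starRingEnd ℂ) ρ, by
    obtain ⟨h1, h2, h3⟩ := ρ.2
    exact ⟨by rw [riemannZeta_conj, h1, map_zero], by rwa [Complex.conj_re], by rwa [Complex.conj_re]⟩⟩
  invFun ρ := ⟨(starRingEnd ℂ) ρ, by
    obtain ⟨h1, h2, h3⟩ := ρ.2
    exact ⟨by rw [riemannZeta_conj, h1, map_zero], by rwa [Complex.conj_re], by rwa [Complex.conj_re]⟩⟩
  left_inv ρ := Subtype.ext (Complex.conj_conj _)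
  right_inv ρ := Subtype.ext (Complex.conj_conj _)

theorem gm_cj (ρ : NT) : gm (cj ρ) = -gm ρ := Complex.conj_im _

theorem wt_cj (ρ : NT) : wt (cj ρ) = wt ρ := by
  unfold wt
  have : ((cj ρ : NT) : ℂ) = (starRingEnd ℂ) ρ := rfl
  rw [this, deriv_conj, ← map_mul, RCLike.norm_conj]

theorem fin_summable (T : ℝ) (f : NT → ℝ) :
    Summable fun ρ : NT => if 0 < gm ρ ∧ gm ρ ≤ T then f ρ else 0 := by
  refine summable_of_hasFiniteSupport ((zeros_fin T).subset fun ρ hρ => ?_)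
  by_contra h
  refine hρ (if_neg fun h2 => h ?_)
  show |gm ρ| ≤ T
  rw [abs_of_pos h2.1]
  exact h2.2

theorem fin_summable' (T : ℝ) (f : NT → ℝ) :
    Summable fun ρ : NT => if 0 < -gm ρ ∧ -gm ρ ≤ T then f ρ else 0 := by
  refine summable_of_hasFiniteSupport ((zeros_fin T).subset fun ρ hρ => ?_)
  by_contra h
  refine hρ (if_neg fun h2 => h ?_)
  show |gm ρ| ≤ T
  rw [← abs_neg, abs_of_pos h2.1]
  exact h2.2

theorem G_half (T : ℝ) : G wt gm T = 2 * ∑' ρ : NT, if 0 < gm ρ ∧ gm ρ ≤ T then gm ρ ^ 2 * wt ρ else 0 := by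
  have h1 : ∀ ρ : NT, (if |gm ρ| ≤ T then gm ρ ^ 2 * wt ρ else 0) =
      (if 0 < gm ρ ∧ gm ρ ≤ T then gm ρ ^ 2 * wt ρ else 0) +
        if 0 < -gm ρ ∧ -gm ρ ≤ T then gm ρ ^ 2 * wt ρ else 0 := by
    intro ρ
    rcases lt_trichotomy (gm ρ) 0 with h | h | h
    · rw [abs_of_neg h, if_neg (show ¬ (0 < gm ρ ∧ gm ρ ≤ T) from fun h2 => absurd h2.1 (not_lt.2 h.le)), zero_add]
      have h3 : 0 < -gm ρ := by linarith
      simp only [h3, true_and]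
    · rw [h]
      simp
    · rw [abs_of_pos h, if_neg (show ¬ (0 < -gm ρ ∧ -gm ρ ≤ T) from fun h2 => by linarith [h2.1]), add_zero]
      simp only [h, true_and]
  unfold G
  rw [tsum_congr h1, (fin_summable T fun ρ => gm ρ ^ 2 * wt ρ).tsum_add (fin_summable' T fun ρ => gm ρ ^ 2 * wt ρ)]
  have h2 : ∑' ρ : NT, (if 0 < -gm ρ ∧ -gm ρ ≤ T then gm ρ ^ 2 * wt ρ else 0) =
      ∑' ρ : NT, if 0 < gm ρ ∧ gm ρ ≤ T then gm ρ ^ 2 * wt ρ else 0 := by
    rw [← cj.tsum_eq]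
    refine tsum_congr fun ρ => ?_
    rw [gm_cj, wt_cj, neg_neg, neg_sq]
  rw [h2]
  ring

theorem im_sq {ρ : ℂ} (h : ρ.re = 1 / 2) : ρ.im ^ 2 = ‖ρ‖ ^ 2 - 1 / 4 := by
  rw [← Complex.normSq_eq_norm_sq, Complex.normSq_apply, h]
  ring

theorem term_eq (hRH : ∀ ρ ∈ NT, ρ.re = 1 / 2) (ρ : NT) :
    gm ρ ^ 2 * wt ρ = 1 / ‖deriv riemannZeta ρ‖ ^ 2 - wt ρ / 4 := by
  have h1 := hRH ρ ρ.2
  have h2 := im_sq h1
  have h3 : ‖(ρ : ℂ)‖ ≠ 0 := by
    rw [norm_ne_zero_iff]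
    intro h
    rw [h] at h1
    simp at h1
  unfold gm wt
  rw [h2, norm_mul]
  by_cases h4 : ‖deriv riemannZeta (ρ : ℂ)‖ = 0
  · rw [h4]
    simp
  · field_simp

/-- the relation between `J` and `G` -/
theorem G_eq_J (hRH : ∀ ρ ∈ NT, ρ.re = 1 / 2) (T : ℝ) :
    G wt gm T = 2 * J T - 1 / 2 * ∑' ρ : NT, if 0 < gm ρ ∧ gm ρ ≤ T then wt ρ else 0 := by
  rw [G_half]
  have h1 : ∀ ρ : NT, (if 0 < gm ρ ∧ gm ρ ≤ T then gm ρ ^ 2 * wt ρ else 0) =
      (if 0 < gm ρ ∧ gm ρ ≤ T then 1 / ‖deriv riemannZeta (ρ : ℂ)‖ ^ 2 else 0) -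
        (if 0 < gm ρ ∧ gm ρ ≤ T then wt ρ else 0) * (1 / 4) := by
    intro ρ
    split_ifs
    · rw [term_eq hRH]
      ring
    · ring
  rw [tsum_congr h1, (fin_summable T fun ρ : NT => 1 / ‖deriv riemannZeta (ρ : ℂ)‖ ^ 2).tsum_sub
    ((fin_summable T wt).mul_right _), tsum_mul_right]
  unfold J gm
  ring

theorem part_nonneg (T : ℝ) : 0 ≤ ∑' ρ : NT, if 0 < gm ρ ∧ gm ρ ≤ T then wt ρ else 0 :=
  tsum_nonneg fun ρ => by
    split_ifs
    · exact wt_nonneg ρ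
    · exact le_rfl

theorem part_le (hw : Summable wt) (T : ℝ) :
    ∑' ρ : NT, (if 0 < gm ρ ∧ gm ρ ≤ T then wt ρ else 0) ≤ ∑' ρ : NT, wt ρ := by
  refine Summable.tsum_le_tsum (fun ρ => ?_) (fin_summable T wt) hw
  split_ifs
  · exact le_rfl
  · exact wt_nonneg ρ

theorem J_nonneg (T : ℝ) : 0 ≤ J T := tsum_nonneg fun ρ => by
  split_ifs
  · positivity
  · exact le_rfl

theorem J_mono {S T : ℝ} (h : S ≤ T) : J S ≤ J T := by
  refine Summable.tsum_le_tsum (fun ρ => ?_) (fin_summable S fun ρ : NT => 1 / ‖deriv riemannZeta (ρ : ℂ)‖ ^ 2)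
    (fin_summable T fun ρ : NT => 1 / ‖deriv riemannZeta (ρ : ℂ)‖ ^ 2)
  by_cases h1 : 0 < (ρ : ℂ).im ∧ (ρ : ℂ).im ≤ S
  · rw [if_pos h1, if_pos ⟨h1.1, h1.2.trans h⟩]
  · rw [if_neg h1]
    split_ifs
    · positivity
    · exact le_rfl

/-- power bounds for `J` and for `G` -/
theorem G_of_J (hRH : ∀ ρ ∈ NT, ρ.re = 1 / 2) {β C : ℝ} (hJ : ∀ T : ℝ, 1 ≤ T → J T ≤ C * T ^ (2 - β)) (T : ℝ)
    (hT : 1 ≤ T) : G wt gm T ≤ 2 * C * T ^ (2 - β) := by
  rw [G_eq_J hRH]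
  have h1 := part_nonneg T
  have h2 := hJ T hT
  linarith

theorem J_of_G (hRH : ∀ ρ ∈ NT, ρ.re = 1 / 2) (hw : Summable wt) {β C : ℝ} (hβ2 : β < 2)
    (hG : ∀ T : ℝ, 1 ≤ T → G wt gm T ≤ C * T ^ (2 - β)) (T : ℝ) (hT : 1 ≤ T) :
    J T ≤ (C / 2 + (∑' ρ : NT, wt ρ) / 4) * T ^ (2 - β) := by
  have h1 := hG T hT
  rw [G_eq_J hRH] at h1
  have h2 := part_le hw T
  have h3 : 1 ≤ T ^ (2 - β) := Real.one_le_rpow hT (by linarith)
  have h4 : 0 ≤ ∑' ρ : NT, wt ρ := tsum_nonneg wt_nonneg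
  nlinarith

theorem J_lim (hRH : ∀ ρ ∈ NT, ρ.re = 1 / 2) (hw : Summable wt) {c : ℝ} :
    Tendsto (fun T => J T / T) atTop (𝓝 c) ↔ Tendsto (fun T => G wt gm T / T) atTop (𝓝 (2 * c)) := by
  have h0 : Tendsto (fun T : ℝ => (1 / 2 * ∑' ρ : NT, if 0 < gm ρ ∧ gm ρ ≤ T then wt ρ else 0) / T) atTop
      (𝓝 0) := by
    have h1 : Tendsto (fun T : ℝ => (1 / 2 * ∑' ρ : NT, wt ρ) / T) atTop (𝓝 0) :=
      tendsto_const_nhds.div_atTop tendsto_id
    refine squeeze_zero' ?_ ?_ h1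
    · filter_upwards [eventually_gt_atTop 0] with T hT
      have := part_nonneg T
      positivity
    · filter_upwards [eventually_gt_atTop 0] with T hT
      have := part_le hw T
      exact div_le_div_of_nonneg_right (by linarith) hT.le
  constructor
  · intro h
    have h1 := (h.const_mul 2).sub h0
    rw [sub_zero] at h1
    refine h1.congr fun T => ?_
    rw [G_eq_J hRH]
    ring
  · intro h
    have h1 := (h.add h0).div_const 2
    have e : (2 * c + 0) / 2 = c := by ring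
    rw [e] at h1
    refine h1.congr fun T => ?_
    rw [G_eq_J hRH]
    ring

theorem J_bdd {c : ℝ} (h : Tendsto (fun T => J T / T) atTop (𝓝 c)) :
    ∃ C : ℝ, ∀ T : ℝ, 1 ≤ T → J T ≤ C * T := by
  obtain ⟨T₀, hT₀⟩ := eventually_atTop.1 (h.eventually (eventually_le_nhds (show c < c + 1 by linarith)))
  have h1 : 1 ≤ max T₀ 1 := le_max_right _ _
  refine ⟨max (c + 1) (J (max T₀ 1)), fun T hT => ?_⟩
  have hT0 : 0 < T := by linarith
  rcases le_total (max T₀ 1) T with h | h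
  · have h2 := (div_le_iff₀ hT0).1 (hT₀ T ((le_max_left _ _).trans h))
    exact h2.trans (mul_le_mul_of_nonneg_right (le_max_left _ _) hT0.le)
  · have h2 := J_mono h
    have h3 := J_nonneg (max T₀ 1)
    calc J T ≤ J (max T₀ 1) * 1 := by rw [mul_one]; exact h2
      _ ≤ max (c + 1) (J (max T₀ 1)) * T :=
        mul_le_mul (le_max_right _ _) hT zero_le_one (h3.trans (le_max_right _ _))

theorem wt_summable (hRH : ∀ ρ ∈ NT, ρ.re = 1 / 2) {β C : ℝ} (hβ : 0 < β)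
    (hJ : ∀ T : ℝ, 1 ≤ T → J T ≤ C * T ^ (2 - β)) : Summable wt :=
  summable_of_G wt_nonneg zeros_fin hβ (G_of_J hRH hJ)

end Pool.Agent.E8helper14.JM
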